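import Pool.Agent.Helper58.LC.Goals

set_option autoImplicit false

open Classical Finset

namespace Pool.Agent.Helper58.LC

theorem se (hH : HS) (hC : CC) : SE := by
  intro I J _ x y α β w Q a q hw hW ha hq hcard hlt
  obtain ⟨T, hT, hT2⟩ := hH I (Q × Q) w
    (fun z => univ.filter (fun i => ¬ (α z.1 * x i + β z.1 < y i ↔ α z.2 * x i + β z.2 < y i)))
    a q hw ha hq (by rw [Fintype.card_prod, Fintype.card_coe, ← sq]; exact hcard) hW
  have h1 := hC I J x y α β T Q
  have h2 : (Q.image (fun j => T.filter (fun i => α j * x i + β j < y i))).card < Q.card := by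
    refine lt_of_le_of_lt h1 (lt_of_le_of_lt ?_ hlt)
    exact Nat.succ_le_succ (Nat.pow_le_pow_left hT 2)
  obtain ⟨j, hj, j', hj', hne, heq⟩ := exists_ne_map_eq_of_card_lt_of_maps_to h2
    (fun j hj => mem_image_of_mem _ hj)
  refine ⟨j, hj, j', hj', hne, ?_⟩
  by_contra hcon
  rw [not_le] at hcon
  obtain ⟨i, hi, hi2⟩ := hT2 (⟨j, hj⟩, ⟨j', hj'⟩) hcon.le
  have h3 : i ∈ T.filter (fun i => α j * x i + β j < y i) ↔
      i ∈ T.filter (fun i => α j' * x i + β j' < y i) := by rw [heq]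
  rw [mem_filter, mem_filter] at h3
  rw [mem_filter] at hi2
  exact hi2.2 ⟨fun h => (h3.mp ⟨hi, h⟩).2, fun h => (h3.mpr ⟨hi, h⟩).2⟩

theorem wo (h : WO1) : WO := by
  intro I J _ x y α β Q a q ha hq hI hQ hQa
  obtain ⟨l, h1, h2, h3⟩ := h I J x y α β q Q (fun _ => 1) (fun _ => zero_le_one) hq hQ
  refine ⟨l, h1, h2, fun i => ?_⟩
  have e1 : (2 : ℝ) ^ ch (fun j => decide (α j * x i + β j < y i)) l ≤
      (∑ i : I, (1 : ℝ)) * Real.exp (24 * q * √(Q.card : ℝ)) := by
    refine le_trans ?_ h3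
    have := single_le_sum (f := fun i => (1 : ℝ) * 2 ^ ch (fun j => decide (α j * x i + β j < y i)) l)
      (fun i _ => by positivity) (mem_univ i)
    simpa using this
  have e2 : (∑ i : I, (1 : ℝ)) ≤ 2 ^ q := by
    rw [sum_const, card_univ, nsmul_eq_mul, mul_one]
    exact_mod_cast hI
  have e3 : √(Q.card : ℝ) ≤ a := by
    rw [Real.sqrt_le_left (by positivity)]
    exact_mod_cast hQa
  have e4 : Real.exp (24 * q * √(Q.card : ℝ)) ≤ 2 ^ (35 * q * a) := by
    have f1 : 24 * (q : ℝ) * √(Q.card : ℝ) ≤ Real.log 2 * ((35 * q * a : ℕ) : ℝ) := by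
      have f2 := Real.log_two_gt_d9
      have f3 : 24 * (q : ℝ) * √(Q.card : ℝ) ≤ 24 * (q : ℝ) * a :=
        mul_le_mul_of_nonneg_left e3 (by positivity)
      have f4 : (0 : ℝ) ≤ (q : ℝ) * a := by positivity
      push_cast
      nlinarith
    calc Real.exp (24 * q * √(Q.card : ℝ)) ≤ Real.exp (Real.log 2 * ((35 * q * a : ℕ) : ℝ)) :=
          Real.exp_le_exp.mpr f1
      _ = 2 ^ (35 * q * a) := by
          rw [Real.exp_mul, Real.exp_log (by norm_num), Real.rpow_natCast]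
  have e5 : (2 : ℝ) ^ ch (fun j => decide (α j * x i + β j < y i)) l ≤ 2 ^ (q + 35 * q * a) := by
    rw [pow_add]
    exact e1.trans (mul_le_mul e2 e4 (Real.exp_pos _).le (by positivity))
  have e6 : ch (fun j => decide (α j * x i + β j < y i)) l ≤ q + 35 * q * a :=
    (pow_le_pow_iff_right₀ (by norm_num : (1 : ℝ) < 2)).mp e5
  have e7 : q ≤ q * a := Nat.le_mul_of_pos_right q ha
  nlinarith

end Pool.Agent.Helper58.LC
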