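import Pool.Agent.Helper58.LC.Zone2

set_option autoImplicit false

open Classical Finset Filter Topology

namespace Pool.Agent.Helper58.LC

variable {I J : Type}

theorem neg_ln (c : Cfg I J) (j : J) (t : ℝ) : c.neg.ln j t = - c.ln j t := by
  unfold Cfg.ln Cfg.neg
  ring

theorem neg_X (c : Cfg I J) (j k : J) : c.neg.X j k = c.X j k := by
  show (- c.β k - - c.β j) / (- c.α j - - c.α k) = (c.β k - c.β j) / (c.α j - c.α k)
  rw [show - c.β k - - c.β j = - (c.β k - c.β j) by ring,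
    show - c.α j - - c.α k = - (c.α j - c.α k) by ring, neg_div_neg_eq]

theorem neg_Nb {c : Cfg I J} {R : Finset J} {l a b : J} {t : ℝ} (h : c.Nb R t (c.ln l t) a b) :
    c.neg.Nb R t (c.neg.ln l t) b a := by
  obtain ⟨h1, h2, h3, h4, h5⟩ := h
  refine ⟨h2, h1, ?_, ?_, fun r hr hrb hra => ?_⟩
  · rw [neg_ln, neg_ln]; linarith
  · rw [neg_ln, neg_ln]; linarith
  · rw [neg_ln, neg_ln, neg_ln]
    rcases h5 r hr hra hrb with h | h
    · right; linarith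
    · left; linarith

/-- The code of a point which is not decided by `l`. -/
def Cod (c : Cfg I J) (R : Finset J) (l a b : J) (s : ℝ) (τ : Fin 9) (o : Option J) : Prop :=
  (τ = 0 ∧ ∀ t, t < s → Free c R l a b t s) ∨
  (τ ≠ 0 ∧ ∃ e, e < s ∧ (∀ t, e < t → t < s → Free c R l a b t s) ∧
    ((τ = 1 ∧ o = some a ∧ c.X l a = e) ∨ (τ = 2 ∧ o = some b ∧ c.X l b = e) ∨
      (τ = 3 ∧ T3 c R l a e o) ∨ (τ = 4 ∧ T4 c R l a e o) ∨ (τ = 5 ∧ T5 c R l a e o) ∨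
      (τ = 6 ∧ T3 c.neg R l b e o) ∨ (τ = 7 ∧ T4 c.neg R l b e o) ∨
      (τ = 8 ∧ T5 c.neg R l b e o)))

theorem cod_ex (hT : TYP) (c : Cfg I J) (R : Finset J) (l a b : J) (s : ℝ)
    (hnb : c.Nb R s (c.ln l s) a b) :
    ∃ (τ : Fin 9) (o : Option J), (∀ d, o = some d → d ∈ R) ∧ Cod c R l a b s τ o := by
  obtain ⟨E, hE⟩ : ∃ E : Finset ℝ, E = (((R.filter (fun r => r ≠ a)).image (fun r => c.X a r)) ∪
    (((R.filter (fun r => r ≠ b)).image (fun r => c.X b r)) ∪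
      ({c.X l a, c.X l b} : Finset ℝ))).filter (fun e => e < s) := ⟨_, rfl⟩
  have mem : ∀ e, e ∈ E ↔ ((∃ r ∈ R, r ≠ a ∧ c.X a r = e) ∨ (∃ r ∈ R, r ≠ b ∧ c.X b r = e) ∨
      e = c.X l a ∨ e = c.X l b) ∧ e < s := by
    intro e
    rw [hE]
    simp only [mem_filter, mem_union, mem_image, mem_insert, mem_singleton]
    constructor
    · rintro ⟨⟨r, ⟨h1, h2⟩, h3⟩ | ⟨r, ⟨h1, h2⟩, h3⟩ | h, h5⟩
      · exact ⟨Or.inl ⟨r, h1, h2, h3⟩, h5⟩
      · exact ⟨Or.inr (Or.inl ⟨r, h1, h2, h3⟩), h5⟩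
      · exact ⟨Or.inr (Or.inr h), h5⟩
    · rintro ⟨⟨r, h1, h2, h3⟩ | ⟨r, h1, h2, h3⟩ | h, h5⟩
      · exact ⟨Or.inl ⟨r, ⟨h1, h2⟩, h3⟩, h5⟩
      · exact ⟨Or.inr (Or.inl ⟨r, ⟨h1, h2⟩, h3⟩), h5⟩
      · exact ⟨Or.inr (Or.inr h), h5⟩
  have free : ∀ t, (∀ e ∈ E, e < t) → Free c R l a b t s := by
    intro t ht
    refine ⟨fun r hr hra => ?_, fun r hr hrb => ?_, ?_, ?_⟩
    · by_contra hcon
      rw [not_or, not_lt, not_le] at hcon
      exact absurd (ht _ ((mem _).mpr ⟨Or.inl ⟨r, hr, hra, rfl⟩, hcon.2⟩)) (not_lt.mpr hcon.1)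
    · by_contra hcon
      rw [not_or, not_lt, not_le] at hcon
      exact absurd (ht _ ((mem _).mpr ⟨Or.inr (Or.inl ⟨r, hr, hrb, rfl⟩), hcon.2⟩))
        (not_lt.mpr hcon.1)
    · by_contra hcon
      rw [not_or, not_lt, not_le] at hcon
      exact absurd (ht _ ((mem _).mpr ⟨Or.inr (Or.inr (Or.inl rfl)), hcon.2⟩))
        (not_lt.mpr hcon.1)
    · by_contra hcon
      rw [not_or, not_lt, not_le] at hcon
      exact absurd (ht _ ((mem _).mpr ⟨Or.inr (Or.inr (Or.inr rfl)), hcon.2⟩))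
        (not_lt.mpr hcon.1)
  rcases E.eq_empty_or_nonempty with hemp | hne
  · refine ⟨0, none, (fun d hd => by cases hd), Or.inl ⟨rfl, fun t ht => free t ?_⟩⟩
    intro e he
    rw [hemp] at he
    exact absurd he (notMem_empty _)
  obtain ⟨e, heE, hmax⟩ : ∃ e ∈ E, ∀ e' ∈ E, e' ≤ e := ⟨E.max' hne, E.max'_mem hne,
    fun e' he' => E.le_max' e' he'⟩
  obtain ⟨hcase, hes⟩ := (mem e).mp heE
  have hfree : ∀ t, e < t → t < s → Free c R l a b t s := fun t h1 h2 =>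
    free t fun e' he' => lt_of_le_of_lt (hmax e' he') h1
  have hNb : ∀ t, e < t → t < s → c.Nb R t (c.ln l t) a b := fun t h1 h2 =>
    (prop _ _ c R l a b t s h2.le hnb (hfree t h1 h2)).1
  by_cases h1 : c.X l a = e
  · exact ⟨1, some a, fun d hd => by rw [← Option.some.inj hd]; exact hnb.1,
      Or.inr ⟨by decide, e, hes, hfree, Or.inl ⟨rfl, rfl, h1⟩⟩⟩
  by_cases h2 : c.X l b = e
  · exact ⟨2, some b, fun d hd => by rw [← Option.some.inj hd]; exact hnb.2.1,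
      Or.inr ⟨by decide, e, hes, hfree, Or.inr (Or.inl ⟨rfl, rfl, h2⟩)⟩⟩
  rcases hcase with ⟨r, hr, hra, hX⟩ | ⟨r, hr, hrb, hX⟩ | h | h
  · obtain ⟨o, ho, h3⟩ := hT I J c R l a b r e s hes hNb hr hra hX h1
    rcases h3 with h3 | h3 | h3
    · exact ⟨3, o, ho, Or.inr ⟨by decide, e, hes, hfree, Or.inr (Or.inr (Or.inl ⟨rfl, h3⟩))⟩⟩
    · exact ⟨4, o, ho, Or.inr ⟨by decide, e, hes, hfree,
        Or.inr (Or.inr (Or.inr (Or.inl ⟨rfl, h3⟩)))⟩⟩
    · exact ⟨5, o, ho, Or.inr ⟨by decide, e, hes, hfree,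
        Or.inr (Or.inr (Or.inr (Or.inr (Or.inl ⟨rfl, h3⟩))))⟩⟩
  · obtain ⟨o, ho, h3⟩ := hT I J c.neg R l b a r e s hes (fun t h3 h4 => neg_Nb (hNb t h3 h4))
      hr hrb (by rw [neg_X]; exact hX) (by rw [neg_X]; exact h2)
    rcases h3 with h3 | h3 | h3
    · exact ⟨6, o, ho, Or.inr ⟨by decide, e, hes, hfree,
        Or.inr (Or.inr (Or.inr (Or.inr (Or.inr (Or.inl ⟨rfl, h3⟩)))))⟩⟩
    · exact ⟨7, o, ho, Or.inr ⟨by decide, e, hes, hfree,
        Or.inr (Or.inr (Or.inr (Or.inr (Or.inr (Or.inr (Or.inl ⟨rfl, h3⟩))))))⟩⟩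
    · exact ⟨8, o, ho, Or.inr ⟨by decide, e, hes, hfree,
        Or.inr (Or.inr (Or.inr (Or.inr (Or.inr (Or.inr (Or.inr ⟨rfl, h3⟩))))))⟩⟩
  · exact absurd h.symm h1
  · exact absurd h.symm h2

theorem same (c : Cfg I J) (R : Finset J) (l a b a' b' : J) (s s' t : ℝ)
    (h1 : c.Nb R s (c.ln l s) a b) (h2 : c.Nb R s' (c.ln l s') a' b') (ht : t ≤ s) (ht' : t ≤ s')
    (f1 : Free c R l a b t s) (f2 : Free c R l a' b' t s') :
    a = a' ∧ b = b' ∧ c.cnt R a s + c.cnt R b s = c.cnt R a' s' + c.cnt R b' s' := by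
  obtain ⟨p1, p2, p3⟩ := prop _ _ c R l a b t s ht h1 f1
  obtain ⟨q1, q2, q3⟩ := prop _ _ c R l a' b' t s' ht' h2 f2
  obtain ⟨e1, e2⟩ := unq _ _ c R t (c.ln l t) a b a' b' p1 q1
  subst e1
  subst e2
  exact ⟨rfl, rfl, by omega⟩

theorem cod_same (h5 : UN5) (c : Cfg I J) (R : Finset J) (l a b a' b' : J) (s s' : ℝ)
    (h1 : c.Nb R s (c.ln l s) a b) (h2 : c.Nb R s' (c.ln l s') a' b') (τ : Fin 9) (o : Option J)
    (k1 : Cod c R l a b s τ o) (k2 : Cod c R l a' b' s' τ o) :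
    a = a' ∧ b = b' ∧ c.cnt R a s + c.cnt R b s = c.cnt R a' s' + c.cnt R b' s' := by
  rcases k1 with ⟨t0, f1⟩ | ⟨t0, e, hes, f1, g1⟩
  · rcases k2 with ⟨-, f2⟩ | ⟨t0', -⟩
    · obtain ⟨t, ht⟩ := exists_lt (min s s')
      have ht1 := lt_of_lt_of_le ht (min_le_left _ _)
      have ht2 := lt_of_lt_of_le ht (min_le_right _ _)
      exact same c R l a b a' b' s s' t h1 h2 ht1.le ht2.le (f1 t ht1) (f2 t ht2)
    · exact absurd t0 t0'
  · rcases k2 with ⟨t0', -⟩ | ⟨-, e', hes', f2, g2⟩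
    · exact absurd t0' t0
    have n1 : ∀ t, e < t → t < s → c.Nb R t (c.ln l t) a b := fun t p q =>
      (prop _ _ c R l a b t s q.le h1 (f1 t p q)).1
    have n2 : ∀ t, e' < t → t < s' → c.Nb R t (c.ln l t) a' b' := fun t p q =>
      (prop _ _ c R l a' b' t s' q.le h2 (f2 t p q)).1
    have m1 : ∀ t, e < t → t < s → c.neg.Nb R t (c.neg.ln l t) b a := fun t p q =>
      neg_Nb (n1 t p q)
    have m2 : ∀ t, e' < t → t < s' → c.neg.Nb R t (c.neg.ln l t) b' a' := fun t p q =>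
      neg_Nb (n2 t p q)
    have he : e = e' := by
      rcases g1 with ⟨w1, w2⟩ | ⟨w1, w2⟩ | ⟨w1, w2⟩ | ⟨w1, w2⟩ | ⟨w1, w2⟩ | ⟨w1, w2⟩ | ⟨w1, w2⟩ |
        ⟨w1, w2⟩ <;> subst w1 <;> rcases g2 with ⟨v1, v2⟩ | ⟨v1, v2⟩ | ⟨v1, v2⟩ | ⟨v1, v2⟩ |
        ⟨v1, v2⟩ | ⟨v1, v2⟩ | ⟨v1, v2⟩ | ⟨v1, v2⟩ <;>
        first
        | exact absurd v1 (by decide)
        | (obtain ⟨w2, w3⟩ := w2
           obtain ⟨v2, v3⟩ := v2
           have := Option.some.inj (w2.symm.trans v2)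
           subst this
           exact w3.symm.trans v3)
        | exact un3 _ _ c R l a b a' b' e s e' s' o hes hes' n1 n2 w2 v2
        | exact un4 _ _ c R l a b a' b' e s e' s' o hes hes' n1 n2 w2 v2
        | exact h5 _ _ c R l a b a' b' e s e' s' o hes hes' n1 n2 w2 v2
        | exact un3 _ _ c.neg R l b a b' a' e s e' s' o hes hes' m1 m2 w2 v2
        | exact un4 _ _ c.neg R l b a b' a' e s e' s' o hes hes' m1 m2 w2 v2
        | exact h5 _ _ c.neg R l b a b' a' e s e' s' o hes hes' m1 m2 w2 v2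
    subst he
    obtain ⟨t, ht0, ht⟩ := exists_between (lt_min hes hes')
    have ht1 := lt_of_lt_of_le ht (min_le_left _ _)
    have ht2 := lt_of_lt_of_le ht (min_le_right _ _)
    exact same c R l a b a' b' s s' t h1 h2 ht1.le ht2.le (f1 t ht0 ht1) (f2 t ht0 ht2)

theorem zone (hT : TYP) (h5 : UN5) : ZONE := by
  intro I J _ c R h l
  obtain ⟨F, hF⟩ : ∃ F : Finset I, F = univ.filter (fun i => h.und i l) := ⟨_, rfl⟩
  rw [← hF]
  have hmem : ∀ i ∈ F, c.Nb R (c.x i) (c.ln l (c.x i)) (h.a i) (h.b i) := by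
    intro i hi
    rw [hF, mem_filter] at hi
    obtain ⟨n1, n2, n3, n4, n5⟩ := h.nb i
    exact ⟨n1, n2, hi.2.2, hi.2.1, n5⟩
  have hex : ∀ i, ∃ z : Fin 9 × Option J, i ∈ F → (∀ d, z.2 = some d → d ∈ R) ∧
      Cod c R l (h.a i) (h.b i) (c.x i) z.1 z.2 := by
    intro i
    by_cases hi : i ∈ F
    · obtain ⟨τ, o, h1, h2⟩ := cod_ex hT c R l (h.a i) (h.b i) (c.x i) (hmem i hi)
      exact ⟨(τ, o), fun _ => ⟨h1, h2⟩⟩
    · exact ⟨(0, none), fun h => absurd h hi⟩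
  choose code hcode using hex
  have hinj : ∀ i ∈ F, ∀ k ∈ F, code i = code k → h.key i = h.key k := by
    intro i hi k hk hik
    have c1 := (hcode i hi).2
    have c2 := (hcode k hk).2
    rw [← hik] at c2
    obtain ⟨e1, e2, e3⟩ := cod_same h5 c R l _ _ _ _ _ _ (hmem i hi) (hmem k hk) _ _ c1 c2
    unfold Cfg.Cho.key
    rw [e3, e1, e2]
  have h1 : (F.image h.key).card ≤ (F.image code).card := by
    obtain ⟨φ, hφ⟩ : ∃ φ : Fin 9 × Option J → J × J × ℕ, ∀ i ∈ F, φ (code i) = h.key i := by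
      refine ⟨fun z => if hz : ∃ i ∈ F, code i = z then h.key hz.choose else (c.ju, c.ju, 0),
        fun i hi => ?_⟩
      have hz : ∃ k ∈ F, code k = code i := ⟨i, hi, rfl⟩
      simp only [dif_pos hz]
      exact hinj _ hz.choose_spec.1 i hi hz.choose_spec.2
    refine le_trans (card_le_card ?_) (card_image_le (f := φ))
    intro κ hκ
    obtain ⟨i, hi, rfl⟩ := mem_image.mp hκ
    exact mem_image.mpr ⟨code i, mem_image_of_mem _ hi, hφ i hi⟩
  have h2 : (F.image code) ⊆ (univ : Finset (Fin 9)) ×ˢ insert none (R.image some) := by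
    intro z hz
    obtain ⟨i, hi, rfl⟩ := mem_image.mp hz
    rw [mem_product]
    refine ⟨mem_univ _, ?_⟩
    rcases ho : (code i).2 with _ | d
    · exact mem_insert_self _ _
    · exact mem_insert_of_mem (mem_image_of_mem _ ((hcode i hi).1 d ho))
  calc (F.image h.key).card ≤ _ := h1
    _ ≤ _ := card_le_card h2
    _ ≤ 9 * (R.card + 1) := by
        rw [card_product]
        simp only [card_univ, Fintype.card_fin]
        refine Nat.mul_le_mul_left 9 ((card_insert_le _ _).trans ?_)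
        exact Nat.succ_le_succ card_image_le

end Pool.Agent.Helper58.LC
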