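import Pool.Agent.Helper58.LC.Fin2
import Pool.Agent.Helper58.LC.Zone3
import Pool.Agent.Helper58.LC.Ord
import Pool.Agent.Helper2.LC.GPP
import Pool.Agent.Helper22.LC.INS
import Pool.Agent.Helper24.LC.DEC
import Pool.Agent.Helper37.LC.CC1
import Pool.Agent.Helper38.LC.UN5
import Pool.Agent.Helper40.LC.SMP
import Pool.Agent.Helper50.LC.WO1
import Pool.Agent.Helper59.LC.NUM
import Pool.Agent.Helper84.LC.CC
import Pool.Agent.Helper85.LC.TYP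
import Pool.Agent.Helper80.LC.HS
import Pool.Agent.Helper80.LC.CHG

set_option autoImplicit false

namespace Pool.Agent.Helper58.LC

theorem allP (hs : HS) (chg : CHG) : PLB := by
  have hcc : CC := Pool.Agent.Helper84.LC.CC.t Pool.Agent.Helper37.LC.CC1.t
  have hse : SE := se hs hcc
  have hwo : WO := wo (Pool.Agent.Helper50.LC.WO1.t hse Pool.Agent.Helper22.LC.INS.t)
  have hzone : ZONE := zone (Pool.Agent.Helper85.LC.TYP.t cmp) Pool.Agent.Helper38.LC.UN5.t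
  have hsmp : SMP := Pool.Agent.Helper40.LC.SMP.t hs k1
  exact plb (Pool.Agent.Helper24.LC.DEC.t hsmp nbx hzone hwo rep chg rnk cmp)
    Pool.Agent.Helper2.LC.GPP.t

theorem plbT : PLB := allP Pool.Agent.Helper80.LC.HS.t Pool.Agent.Helper80.LC.CHG.t

theorem allSeg : ∃ (C : ℝ) (f : ℕ → ℕ → Prop), 0 < C ∧ ∀ n : ℕ, ∀ G : SimpleGraph (Fin n),
    SG.Seg n G → ∃ l : Fin n → ℕ,
      (∀ v, (l v : ℝ) < 2 ^ (C * (n : ℝ) ^ (1 / 3 : ℝ) * Real.log n ^ 2)) ∧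
      ∀ v w : Fin n, v ≠ w → (G.Adj v w ↔ f (l v) (l w)) :=
  fin plbT enc red Pool.Agent.Helper59.LC.NUM.t

theorem allBool (m : ℕ) (hm : 1 ≤ m) (F : (Fin m → Prop) → Prop) :
    ∃ (C : ℝ) (f : ℕ → ℕ → Prop), 0 < C ∧ ∀ n : ℕ, ∀ G : SimpleGraph (Fin n),
      SG.BoolSign m F n G → ∃ l : Fin n → ℕ,
        (∀ v, (l v : ℝ) < 2 ^ (C * (n : ℝ) ^ (1 / 3 : ℝ) * Real.log n ^ 2)) ∧
        ∀ v w : Fin n, v ≠ w → (G.Adj v w ↔ f (l v) (l w)) :=
  fin2 plbT enc Pool.Agent.Helper59.LC.NUM.t m hm F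

end Pool.Agent.Helper58.LC
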