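import Pool.Agent.Helper58.SG.Main3

/-!
# Project LC (MP_957450_co): labels of `O(n^(1/3) log^2 n)` bits for segment graphs

Points `i : I`, lines `j : J`: `Y = α j * X + β j`.
-/

set_option autoImplicit false

open Classical

namespace Pool.Agent.Helper58.LC

/-- Points and lines in general position; the line `ju` is above all points, the line `jd` is below
all points. -/
structure Cfg (I J : Type) where
  x : I → ℝ
  y : I → ℝ
  α : J → ℝ
  β : J → ℝ
  ju : J
  jd : J
  slope : ∀ j k, α j = α k → j = k
  off : ∀ i j, α j * x i + β j ≠ y i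
  gp : ∀ i j k, j ≠ k → α j * x i + β j ≠ α k * x i + β k
  up : ∀ i, y i < α ju * x i + β ju
  down : ∀ i, α jd * x i + β jd < y i

variable {I J : Type}

/-- Height of the line `j` at the abscissa `t`. -/
def Cfg.ln (c : Cfg I J) (j : J) (t : ℝ) : ℝ := c.α j * t + c.β j

/-- The point `i` is above the line `j`. -/
def Cfg.U (c : Cfg I J) (i : I) (j : J) : Prop := c.ln j (c.x i) < c.y i

/-- The abscissa of the crossing of the lines `j` and `k`. -/
noncomputable def Cfg.X (c : Cfg I J) (j k : J) : ℝ := (c.β k - c.β j) / (c.α j - c.α k)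

/-- Reflection at the first axis. -/
def Cfg.neg (c : Cfg I J) : Cfg I J where
  x := c.x
  y := fun i => - c.y i
  α := fun j => - c.α j
  β := fun j => - c.β j
  ju := c.jd
  jd := c.ju
  slope := fun j k h => c.slope j k (neg_injective h)
  off := fun i j h => c.off i j (by linarith)
  gp := fun i j k hjk h => c.gp i j k hjk (by linarith)
  up := fun i => by have := c.down i; linarith
  down := fun i => by have := c.up i; linarith

/-- `a`, `b` are the upper and the lower neighbour in `R` of the point `(t, h)`. -/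
def Cfg.Nb (c : Cfg I J) (R : Finset J) (t h : ℝ) (a b : J) : Prop :=
  a ∈ R ∧ b ∈ R ∧ h < c.ln a t ∧ c.ln b t < h ∧
    ∀ r ∈ R, r ≠ a → r ≠ b → c.ln a t < c.ln r t ∨ c.ln r t < c.ln b t

/-- The number of crossings on the line `a` with lines of `R` to the left of `t`. -/
noncomputable def Cfg.cnt (c : Cfg I J) (R : Finset J) (a : J) (t : ℝ) : ℕ :=
  (R.filter (fun r => r ≠ a ∧ c.X a r < t)).card

/-- A choice of the neighbours in `R` of all points. -/
structure Cfg.Cho (c : Cfg I J) (R : Finset J) where
  a : I → J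
  b : I → J
  nb : ∀ i, c.Nb R (c.x i) (c.y i) (a i) (b i)

/-- The key of a point: its neighbours and the number of crossings on them to the left. -/
noncomputable def Cfg.Cho.key {c : Cfg I J} {R : Finset J} (h : c.Cho R) (i : I) : J × J × ℕ :=
  (h.a i, h.b i, c.cnt R (h.a i) (c.x i) + c.cnt R (h.b i) (c.x i))

/-- The line `l` is between the neighbours of the point `i`. -/
def Cfg.Cho.und {c : Cfg I J} {R : Finset J} (h : c.Cho R) (i : I) (l : J) : Prop :=
  c.ln (h.b i) (c.x i) < c.ln l (c.x i) ∧ c.ln l (c.x i) < c.ln (h.a i) (c.x i)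

/-- Number of changes of `g` along the list. -/
def ch {J : Type} (g : J → Bool) : List J → ℕ
  | [] => 0
  | [_] => 0
  | a :: b :: l => (if g a = g b then 0 else 1) + ch g (b :: l)

/-- A class of graphs has labels below `b n`. -/
def Lab (b : ℕ → ℕ) (C : SG.Cls) : Prop :=
  ∃ f : ℕ → ℕ → Prop, ∀ n : ℕ, ∀ G : SimpleGraph (Fin n), C n G →
    ∃ l : Fin n → ℕ, (∀ v, l v < b n) ∧ ∀ v w : Fin n, v ≠ w → (G.Adj v w ↔ f (l v) (l w))

/-- Codes of keys. -/
abbrev Key (S : ℕ) : Type := Fin S × Fin S × Fin (2 * S + 1)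

/-- Labels of points. -/
abbrev LabP (B S H : ℕ) : Type := Key S × Fin (B + 1) × Bool × (Fin H → Option (Fin B))

/-- Labels of lines. -/
abbrev LabL (B S Z : ℕ) : Type :=
  (Fin S → Fin 3 × Fin (B + 1)) × (Fin Z → Option (Key S × Fin (B + 1)))

end Pool.Agent.Helper58.LC
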