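import Pool.Agent.Helper58.LC.Goals

set_option autoImplicit false

open Classical Finset

namespace Pool.Agent.Helper58.LC

theorem rep : REP := by
  intro T S H hS
  refine ⟨fun k => if h : (k : ℕ) < S.card then some (S.equivFin.symm ⟨k, h⟩ : S).1 else none,
    fun x => ⟨fun hx => ?_, ?_⟩⟩
  · refine ⟨⟨S.equivFin ⟨x, hx⟩, lt_of_lt_of_le (S.equivFin ⟨x, hx⟩).2 hS⟩, ?_⟩
    simp
  · rintro ⟨k, hk⟩
    simp only at hk
    split_ifs at hk with h
    rw [Option.some.injEq] at hk
    rw [← hk]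
    exact (S.equivFin.symm ⟨k, h⟩).2

theorem rnk : RNK := by
  intro I _ x i t ht
  constructor
  · intro h
    exact card_le_card (monotone_filter_right _ fun k _ hk => lt_trans hk h)
  · intro h
    by_contra h2
    rw [not_lt] at h2
    have h3 : x i < t := lt_of_le_of_ne h2 (Ne.symm ht)
    have h4 : (univ.filter (fun k => x k < x i)).card < (univ.filter (fun k => x k < t)).card := by
      refine card_lt_card ⟨monotone_filter_right _ fun k _ hk => lt_trans hk h3, fun h5 => ?_⟩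
      have := h5 (mem_filter.mpr ⟨mem_univ i, h3⟩)
      exact lt_irrefl _ (mem_filter.mp this).2
    omega

theorem cmp : CMP := by
  intro I J c t j k hjk
  have h0 : c.α j - c.α k ≠ 0 := sub_ne_zero.mpr fun h => hjk (c.slope j k h)
  have h1 : (c.α j - c.α k) * (t - c.X j k) = c.ln j t - c.ln k t := by
    unfold Cfg.X Cfg.ln
    field_simp
    ring
  obtain ⟨u, hu⟩ : ∃ u, u = c.α j - c.α k := ⟨_, rfl⟩
  obtain ⟨w, hw⟩ : ∃ w, w = t - c.X j k := ⟨_, rfl⟩
  rw [← hu, ← hw] at h1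
  rw [← hu] at h0
  have a1 : c.α j < c.α k ↔ u < 0 := by rw [hu]; constructor <;> intro h <;> linarith
  have a2 : c.α k < c.α j ↔ 0 < u := by rw [hu]; constructor <;> intro h <;> linarith
  have a3 : t < c.X j k ↔ w < 0 := by rw [hw]; constructor <;> intro h <;> linarith
  have a4 : c.X j k < t ↔ 0 < w := by rw [hw]; constructor <;> intro h <;> linarith
  have a5 : c.ln j t < c.ln k t ↔ u * w < 0 := by rw [h1]; constructor <;> intro h <;> linarith
  have a6 : c.ln j t = c.ln k t ↔ u * w = 0 := by rw [h1]; constructor <;> intro h <;> linarith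
  have a7 : t = c.X j k ↔ w = 0 := by rw [hw]; constructor <;> intro h <;> linarith
  refine ⟨?_, ?_, ?_⟩
  · rw [a1, a2, a3, a4, a5, mul_neg_iff, or_comm]
  · rw [a6, a7, mul_eq_zero]
    simp [h0]
  · unfold Cfg.X
    rw [← neg_sub (c.β j), ← neg_sub (c.α k), neg_div_neg_eq]

theorem unq : UNQ := by
  intro I J c R t h a b a' b' h1 h2
  obtain ⟨p1, p2, p3, p4, p5⟩ := h1
  obtain ⟨q1, q2, q3, q4, q5⟩ := h2
  have e1 : a' ≠ b := by rintro rfl; linarith
  have e2 : a ≠ b' := by rintro rfl; linarith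
  constructor
  · by_contra hne
    have f1 := p5 a' q1 (Ne.symm hne) e1
    have f2 := q5 a p1 hne e2
    rcases f1 with f1 | f1 <;> rcases f2 with f2 | f2 <;> linarith
  · by_contra hne
    have f1 := p5 b' q2 e2.symm (Ne.symm hne)
    have f2 := q5 b p2 e1.symm hne
    rcases f1 with f1 | f1 <;> rcases f2 with f2 | f2 <;> linarith

theorem enc : ENC := by
  intro T _ C f h
  refine ⟨fun z w => ∃ (n : ℕ) (x y : T n),
    z = Nat.pair n (Fintype.equivFin _ x) ∧ w = Nat.pair n (Fintype.equivFin _ y) ∧ f n x y,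
    fun n G hG => ?_⟩
  obtain ⟨l, hl⟩ := h n G hG
  refine ⟨fun v => Nat.pair n (Fintype.equivFin _ (l v)), fun v => ?_, fun v w hvw => ?_⟩
  · have h1 : ((Fintype.equivFin (T n) (l v) : Fin _) : ℕ) < Fintype.card (T n) :=
      (Fintype.equivFin (T n) (l v)).2
    refine lt_of_lt_of_le (Nat.pair_lt_max_add_one_sq _ _) (Nat.pow_le_pow_left ?_ 2)
    exact Nat.succ_le_succ (max_le_max le_rfl h1.le)
  · rw [hl v w hvw]
    constructor
    · intro h2
      exact ⟨n, l v, l w, rfl, rfl, h2⟩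
    · rintro ⟨m, x, y, hx, hy, hxy⟩
      obtain ⟨e1, e2⟩ := Nat.pair_eq_pair.mp hx
      obtain ⟨-, e3⟩ := Nat.pair_eq_pair.mp hy
      subst e1
      have f1 : l v = x := (Fintype.equivFin (T n)).injective (Fin.ext e2)
      have f2 : l w = y := (Fintype.equivFin (T n)).injective (Fin.ext e3)
      rw [f1, f2]
      exact hxy

/-- the edges of the neighbours -/
theorem nbx : NBX := by
  intro I J c R hu hd
  have key : ∀ i, ∃ a b, c.Nb R (c.x i) (c.y i) a b := by
    intro i
    obtain ⟨a, ha, ha2⟩ := exists_min_image (R.filter fun r => c.y i < c.ln r (c.x i))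
      (fun r => c.ln r (c.x i)) ⟨c.ju, mem_filter.mpr ⟨hu, c.up i⟩⟩
    obtain ⟨b, hb, hb2⟩ := exists_max_image (R.filter fun r => c.ln r (c.x i) < c.y i)
      (fun r => c.ln r (c.x i)) ⟨c.jd, mem_filter.mpr ⟨hd, c.down i⟩⟩
    rw [mem_filter] at ha hb
    refine ⟨a, b, ha.1, hb.1, ha.2, hb.2, fun r hr hra hrb => ?_⟩
    rcases lt_or_gt_of_ne (c.off i r) with h1 | h1
    · right
      exact lt_of_le_of_ne (hb2 r (mem_filter.mpr ⟨hr, h1⟩)) (c.gp i r b hrb)
    · left
      exact lt_of_le_of_ne (ha2 r (mem_filter.mpr ⟨hr, h1⟩)) (c.gp i a r (Ne.symm hra))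
  choose a b hab using key
  exact ⟨⟨a, b, hab⟩⟩

end Pool.Agent.Helper58.LC
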