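import Pool.Agent.Helper58.LC.Red
import Pool.Agent.Helper58.SG.Ext

set_option autoImplicit false

namespace Pool.Agent.Helper58.LC

open SG

theorem bil {bd : ℕ → ℕ} (h : Lab bd PointLine) :
    Lab (fun n => (max (bd (3 * n)) (2 * n + 3)) ^ 8) Bil3 := by
  obtain ⟨f, hf⟩ := h
  refine ⟨testB f, fun n G hG => ?_⟩
  obtain ⟨u, w, hrep⟩ := hG
  rcases Nat.lt_or_ge n 2 with hn | hn
  · refine ⟨fun _ => 0, fun v => Nat.pow_pos (lt_of_lt_of_le (Nat.succ_pos _) (le_max_right _ _)),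
      fun v w hvw => ?_⟩
    · exfalso
      apply hvw
      ext
      have := v.2
      have := w.2
      omega
  obtain ⟨p, l, h1, h2, h3⟩ := gen3 u w
  obtain ⟨A, hA1, hA2⟩ := labels hf n
    (fun t => if t.1 = 0 then (p t.2).1 / (p t.2).2.2 else - (l t.2).1 / (l t.2).2.1)
    (fun t => if t.1 = 0 then (p t.2).2.1 / (p t.2).2.2 else - (l t.2).2.2 / (l t.2).2.1)
  obtain ⟨B, hB1, hB2⟩ := labels hf n
    (fun t => if t.1 = 0 then (p t.2).1 / (p t.2).2.2 else (l t.2).1 / (l t.2).2.1)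
    (fun t => if t.1 = 0 then - ((p t.2).2.1 / (p t.2).2.2) else (l t.2).2.2 / (l t.2).2.1)
  have tA : ∀ v w, f (A (0, v)) (A (2, w)) ↔
      - (l w).1 / (l w).2.1 * ((p v).1 / (p v).2.2) + - (l w).2.2 / (l w).2.1 ≤
        (p v).2.1 / (p v).2.2 := by
    intro v w
    have := hA2 0 v w (by decide)
    simpa using this
  have tB : ∀ v w, f (B (0, v)) (B (2, w)) ↔
      (l w).1 / (l w).2.1 * ((p v).1 / (p v).2.2) + (l w).2.2 / (l w).2.1 ≤
        - ((p v).2.1 / (p v).2.2) := by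
    intro v w
    have := hB2 0 v w (by decide)
    simpa using this
  obtain ⟨code, hcode⟩ : ∃ code : Fin n → ℕ, ∀ v, code v = enc (sg (p v).2.2) (sg (l v).2.1)
      (A (0, v)) (A (2, v)) (B (0, v)) (B (2, v)) 0 0 := ⟨_, fun _ => rfl⟩
  refine ⟨code, fun v => ?_, fun v w' hvw => ?_⟩
  · have hB0 : bd (3 * n) ≤ max (bd (3 * n)) (2 * n + 3) := le_max_left _ _
    have hr : 2 < max (bd (3 * n)) (2 * n + 3) := lt_of_lt_of_le (by omega) (le_max_right _ _)
    rw [hcode]
    exact enc_lt (lt_of_le_of_lt (sg_le _) hr) (lt_of_le_of_lt (sg_le _) hr)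
      (lt_of_lt_of_le (hA1 _) hB0) (lt_of_lt_of_le (hA1 _) hB0)
      (lt_of_lt_of_le (hB1 _) hB0) (lt_of_lt_of_le (hB1 _) hB0)
      (lt_of_le_of_lt (Nat.zero_le _) hr) (lt_of_le_of_lt (Nat.zero_le _) hr)
  · have e1 : c1 (code v) = sg (p v).2.2 := by rw [hcode]; simp [enc, c1]
    have e2 : c2 (code w') = sg (l w').2.1 := by rw [hcode]; simp [enc, c2]
    have e3 : c3 (code v) = A (0, v) := by rw [hcode]; simp [enc, c3]
    have e4 : c4 (code w') = A (2, w') := by rw [hcode]; simp [enc, c4]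
    have e5 : c5 (code v) = B (0, v) := by rw [hcode]; simp [enc, c5]
    have e6 : c6 (code w') = B (2, w') := by rw [hcode]; simp [enc, c6]
    rw [hrep v w' hvw]
    unfold testB
    rw [e1, e2, e3, e4, e5, e6, tA, tB, ← h1 v w']
    by_cases hp : (p v).2.2 = 0
    · have h4 : sg (p v).2.2 = 0 := by unfold sg; rw [if_pos hp]
      rw [h1, h2 v hp]
      simp [h4, dot3]
    by_cases hl : (l w').2.1 = 0
    · have h4 : sg (l w').2.1 = 0 := by unfold sg; rw [if_pos hl]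
      rw [h1, h3 w' hl]
      simp [h4, dot3]
    have hp0 : sg (p v).2.2 ≠ 0 := by unfold sg; rw [if_neg hp]; split_ifs <;> omega
    have hl0 : sg (l w').2.1 ≠ 0 := by unfold sg; rw [if_neg hl]; split_ifs <;> omega
    have key : dot3 (p v) (l w') = (p v).2.2 * (l w').2.1 *
        ((p v).2.1 / (p v).2.2 + (l w').1 / (l w').2.1 * ((p v).1 / (p v).2.2) +
          (l w').2.2 / (l w').2.1) := by
      unfold dot3
      field_simp
      ring
    have hA3 : (- (l w').1 / (l w').2.1 * ((p v).1 / (p v).2.2) + - (l w').2.2 / (l w').2.1 ≤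
        (p v).2.1 / (p v).2.2) ↔ 0 ≤ (p v).2.1 / (p v).2.2 + (l w').1 / (l w').2.1 *
          ((p v).1 / (p v).2.2) + (l w').2.2 / (l w').2.1 := by
      rw [neg_div, neg_div]
      constructor <;> intro h5 <;> linarith
    have hB3 : ((l w').1 / (l w').2.1 * ((p v).1 / (p v).2.2) + (l w').2.2 / (l w').2.1 ≤
        - ((p v).2.1 / (p v).2.2)) ↔ (p v).2.1 / (p v).2.2 + (l w').1 / (l w').2.1 *
          ((p v).1 / (p v).2.2) + (l w').2.2 / (l w').2.1 ≤ 0 := by
      constructor <;> intro h5 <;> linarith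
    rw [hA3, hB3, key]
    obtain ⟨E, hE⟩ : ∃ E, E = (p v).2.1 / (p v).2.2 + (l w').1 / (l w').2.1 *
          ((p v).1 / (p v).2.2) + (l w').2.2 / (l w').2.1 := ⟨_, rfl⟩
    rw [← hE]
    simp only [hp0, hl0, false_or, not_false_eq_true, true_and, ne_eq]
    rcases lt_or_gt_of_ne hp with hp1 | hp1 <;> rcases lt_or_gt_of_ne hl with hl1 | hl1
    · have e7 : sg (p v).2.2 = 2 := by unfold sg; rw [if_neg hp, if_neg (not_lt.mpr hp1.le)]
      have e8 : sg (l w').2.1 = 2 := by unfold sg; rw [if_neg hl, if_neg (not_lt.mpr hl1.le)]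
      have e9 : 0 < (p v).2.2 * (l w').2.1 := mul_pos_of_neg_of_neg hp1 hl1
      rw [e7, e8]
      simp [mul_nonneg_iff_of_pos_left e9]
    · have e7 : sg (p v).2.2 = 2 := by unfold sg; rw [if_neg hp, if_neg (not_lt.mpr hp1.le)]
      have e8 : sg (l w').2.1 = 1 := by unfold sg; rw [if_neg hl, if_pos hl1]
      have e9 : (p v).2.2 * (l w').2.1 < 0 := mul_neg_of_neg_of_pos hp1 hl1
      rw [e7, e8]
      simp [nonneg_neg e9]
    · have e7 : sg (p v).2.2 = 1 := by unfold sg; rw [if_neg hp, if_pos hp1]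
      have e8 : sg (l w').2.1 = 2 := by unfold sg; rw [if_neg hl, if_neg (not_lt.mpr hl1.le)]
      have e9 : (p v).2.2 * (l w').2.1 < 0 := mul_neg_of_pos_of_neg hp1 hl1
      rw [e7, e8]
      simp [nonneg_neg e9]
    · have e7 : sg (p v).2.2 = 1 := by unfold sg; rw [if_neg hp, if_pos hp1]
      have e8 : sg (l w').2.1 = 1 := by unfold sg; rw [if_neg hl, if_pos hl1]
      have e9 : 0 < (p v).2.2 * (l w').2.1 := mul_pos hp1 hl1
      rw [e7, e8]
      simp [mul_nonneg_iff_of_pos_left e9]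

/-- Edges inside the two parts of a partition are removed. -/
theorem trans {b : ℕ → ℕ} {C D : Cls} (hC : Lab b C)
    (h : ∀ n (G : SimpleGraph (Fin n)), D n G → ∃ (H : SimpleGraph (Fin n)) (c : Fin n → Bool),
      C n H ∧ ∀ v w, v ≠ w → (G.Adj v w ↔ c v ≠ c w ∧ H.Adj v w)) : Lab (fun n => 2 * b n) D := by
  obtain ⟨f, hf⟩ := hC
  refine ⟨fun a b => a % 2 ≠ b % 2 ∧ f (a / 2) (b / 2), fun n G hG => ?_⟩
  obtain ⟨H, c, hH, hadj⟩ := h n G hG
  obtain ⟨l, hl, hl2⟩ := hf n H hH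
  refine ⟨fun v => 2 * l v + (if c v then 1 else 0), fun v => ?_, fun v w hvw => ?_⟩
  · have h1 := hl v
    have h2 : (if c v then 1 else 0) ≤ 1 := by split_ifs <;> simp
    show 2 * l v + (if c v then 1 else 0) < 2 * b n
    omega
  · have e1 : ∀ u, (2 * l u + (if c u then 1 else 0)) / 2 = l u := by
      intro u; split_ifs <;> omega
    have e2 : ∀ u, (2 * l u + (if c u then 1 else 0)) % 2 = if c u then 1 else 0 := by
      intro u; split_ifs <;> omega
    rw [hadj v w hvw, hl2 v w hvw]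
    show _ ↔ _ ≠ _ ∧ f _ _
    rw [e1, e1, e2, e2]
    cases c v <;> cases c w <;> simp

/-- `s` copies of each vertex. -/
theorem comb {b : ℕ → ℕ} {C D : Cls} (s : ℕ) (F : (Fin s → Fin s → Prop) → Prop) (hC : Lab b C)
    (h : ∀ n (G : SimpleGraph (Fin n)), D n G → ∃ H : SimpleGraph (Fin (s * n)), C (s * n) H ∧
      ∀ v w, v ≠ w → (G.Adj v w ↔
        F (fun i j => H.Adj (finProdFinEquiv (i, v)) (finProdFinEquiv (j, w))))) :
    Lab (fun n => (max (b (s * n)) 1) ^ (2 ^ s)) D := by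
  obtain ⟨f, hf⟩ := hC
  refine ⟨fun a b => F (fun i j => f (decm i a) (decm j b)), fun n G hG => ?_⟩
  obtain ⟨H, hH, hadj⟩ := h n G hG
  obtain ⟨l, hl, hl2⟩ := hf (s * n) H hH
  refine ⟨fun v => encm s (fun i => l (finProdFinEquiv (i, v))), fun v => ?_, fun v w hvw => ?_⟩
  · exact encm_lt (lt_of_lt_of_le one_pos (le_max_right _ _)) s _ fun i =>
      lt_of_lt_of_le (hl _) (le_max_left _ _)
  · rw [hadj v w hvw]
    have e : (fun i j => H.Adj (finProdFinEquiv (i, v)) (finProdFinEquiv (j, w))) =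
        fun i j : Fin s => f (decm i (encm s (fun i => l (finProdFinEquiv (i, v)))))
          (decm j (encm s (fun i => l (finProdFinEquiv (i, w))))) := by
      funext i j
      rw [decm_encm, decm_encm]
      refine propext (hl2 _ _ fun he => hvw ?_)
      have := finProdFinEquiv.injective he
      exact (Prod.ext_iff.mp this).2
    rw [e]

theorem sgn {b : ℕ → ℕ} (h : Lab b Bil3) : Lab (fun n => 2 * b n) Sign3 := by
  refine trans h fun n G hG => ?_
  obtain ⟨c, u, hG⟩ := hG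
  refine ⟨⟨fun v w => v ≠ w ∧ 0 ≤ dot3 (u v) (u w),
    ⟨fun v w hvw => ⟨hvw.1.symm, by rw [dot3_comm]; exact hvw.2⟩⟩,
    ⟨fun v hv => hv.1 rfl⟩⟩, c, ⟨u, u, fun v w hvw => ?_⟩, fun v w hvw => ?_⟩
  · exact ⟨fun h1 => h1.2, fun h1 => ⟨hvw, h1⟩⟩
  · rw [hG]
    exact ⟨fun h1 => ⟨h1.1, hvw, h1.2⟩, fun h1 => ⟨h1.1, h1.2.2⟩⟩

theorem boolS {b : ℕ → ℕ} (h : Lab b Sign3) (m : ℕ) (F : (Fin m → Prop) → Prop) :
    Lab (fun n => (max (b (2 * m * n)) 1) ^ (2 ^ (2 * m))) (BoolSign m F) := by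
  refine comb (2 * m)
    (fun M => F (fun i => M (finProdFinEquiv (0, i)) (finProdFinEquiv (1, i)))) h
    fun n G hG => ?_
  obtain ⟨u, w, hG⟩ := hG
  let side : Fin (2 * m * n) → Fin 2 := fun t =>
    (finProdFinEquiv.symm (finProdFinEquiv.symm t).1).1
  let V : Fin (2 * m * n) → ℝ × ℝ × ℝ := fun t =>
    if side t = 0 then u (finProdFinEquiv.symm (finProdFinEquiv.symm t).1).2
      (finProdFinEquiv.symm t).2
    else w (finProdFinEquiv.symm (finProdFinEquiv.symm t).1).2 (finProdFinEquiv.symm t).2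
  refine ⟨⟨fun s t => side s ≠ side t ∧ 0 ≤ dot3 (V s) (V t),
    ⟨fun v w hvw => ⟨hvw.1.symm, by rw [dot3_comm]; exact hvw.2⟩⟩,
    ⟨fun v hv => hv.1 rfl⟩⟩, ⟨fun t => decide (side t = 0), V, fun s t => ?_⟩, fun v w' hvw => ?_⟩
  · show _ ∧ _ ↔ _
    have h1 : (side s ≠ side t) ↔ (decide (side s = 0) ≠ decide (side t = 0)) := by
      generalize side s = a
      generalize side t = b
      revert a b
      decide
    rw [h1]
  · rw [hG v w' hvw]
    have e : (fun i => 0 ≤ dot3 (u i v) (w i w')) = fun i : Fin m =>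
        side (finProdFinEquiv (finProdFinEquiv (0, i), v)) ≠
          side (finProdFinEquiv (finProdFinEquiv (1, i), w')) ∧
        0 ≤ dot3 (V (finProdFinEquiv (finProdFinEquiv (0, i), v)))
          (V (finProdFinEquiv (finProdFinEquiv (1, i), w'))) := by
      funext i
      simp only [side, V, Equiv.symm_apply_apply]
      simp
    rw [e]

end Pool.Agent.Helper58.LC
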