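import Pool.Agent.Helper58.LC.Goals

set_option autoImplicit false

open Classical

namespace Pool.Agent.Helper58.LC

/-- Compare a point with a line. -/
def cmpr {P L : Type} (dec : P → L → Prop) : P ⊕ L → P ⊕ L → Prop
  | Sum.inl p, Sum.inr l => dec p l
  | Sum.inr l, Sum.inl p => dec p l
  | _, _ => False

theorem plb (hD : DEC) (hG : GPP) : PLB := by
  intro q a hq ha h4 h3
  choose dec hdec using fun n => hD (n + 2) (q n) (a n) (hq n) (ha n) (h4 n) (h3 n)
  refine ⟨fun n => cmpr (dec n), fun n G hG2 => ?_⟩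
  obtain ⟨c, x, y, hadj⟩ := hG2
  obtain ⟨x', y', r1, r2⟩ := SG.robust c x y
  have off : ∀ (i : {v // c v = false}) (j : {v // c v = true}),
      x' j * x' i + y' j ≠ y' i := by
    intro i j he
    rcases le_or_gt (x j * x i + y j) (y i) with h | h
    · exact absurd he ((r1 i j i.2 j.2).1 h).ne
    · exact absurd he ((r1 i j i.2 j.2).2 h).ne'
  obtain ⟨cf, hcf⟩ := hG {v // c v = false} {v // c v = true} (fun i => x' i) (fun i => y' i)
    (fun j => x' j) (fun j => y' j)
    (fun j k hjk => by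
      by_contra hne
      exact r2 j k j.2 k.2 (fun h => hne (Subtype.ext h)) hjk) off
  have c1 : Fintype.card {v // c v = false} ≤ n + 2 := by
    have := Fintype.card_subtype_le (fun v => c v = false)
    rw [Fintype.card_fin] at this
    omega
  have c2 : Fintype.card ({v // c v = true} ⊕ Bool) ≤ n + 2 := by
    have := Fintype.card_subtype_le (fun v => c v = true)
    rw [Fintype.card_fin] at this
    rw [Fintype.card_sum, Fintype.card_bool]
    omega
  obtain ⟨lp, ll, hl⟩ := hdec n {v // c v = false} ({v // c v = true} ⊕ Bool) cf c1 c2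
  have key : ∀ (i : {v // c v = false}) (j : {v // c v = true}),
      dec n (lp i) (ll (Sum.inl j)) ↔ x j * x i + y j ≤ y i := by
    intro i j
    rw [hl, hcf]
    constructor
    · intro h
      by_contra h2
      rw [not_le] at h2
      exact absurd ((r1 i j i.2 j.2).2 h2) (not_lt.mpr h.le)
    · exact (r1 i j i.2 j.2).1
  obtain ⟨l, l0, l1⟩ : ∃ l : Fin n → (LabP (n + 2) (a n * q n + 2) (36 * q n * a n) ⊕
        LabL (n + 2) (a n * q n + 2) (9 * (a n * q n + 3))),
      (∀ v (h : c v = false), l v = Sum.inl (lp ⟨v, h⟩)) ∧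
      (∀ v (h : c v = true), l v = Sum.inr (ll (Sum.inl ⟨v, h⟩))) := by
    refine ⟨fun v => if h : c v = true then Sum.inr (ll (Sum.inl ⟨v, h⟩)) else
      Sum.inl (lp ⟨v, by simpa using h⟩), fun v h => ?_, fun v h => ?_⟩
    · have h' : ¬ c v = true := by rw [h]; decide
      simp only [dif_neg h']
    · simp only [dif_pos h]
  refine ⟨l, fun v w hvw => ?_⟩
  rw [hadj]
  rcases hv : c v with _ | _ <;> rcases hw : c w with _ | _
  · rw [l0 v hv, l0 w hw]
    simp [cmpr]
  · rw [l0 v hv, l1 w hw]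
    show _ ↔ dec n _ _
    rw [key]
    simp
  · rw [l1 v hv, l0 w hw]
    show _ ↔ dec n _ _
    rw [key]
    simp
  · rw [l1 v hv, l1 w hw]
    simp [cmpr]

/-- the final bound -/
theorem fin (hP : PLB) (hE : ENC) (hR : RED) (hN : NUM) :
    ∃ (C : ℝ) (f : ℕ → ℕ → Prop), 0 < C ∧ ∀ n : ℕ, ∀ G : SimpleGraph (Fin n), SG.Seg n G →
      ∃ l : Fin n → ℕ, (∀ v, (l v : ℝ) < 2 ^ (C * (n : ℝ) ^ (1 / 3 : ℝ) * Real.log n ^ 2)) ∧
        ∀ v w : Fin n, v ≠ w → (G.Adj v w ↔ f (l v) (l w)) := by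
  obtain ⟨q, a, C, hq, ha, h4, h3, hC, hb⟩ := hN
  obtain ⟨f, hf⟩ := hP q a hq ha h4 h3
  have h1 := hE _ _ f hf
  obtain ⟨F, hF⟩ := hR _ h1
  refine ⟨C, F, hC, fun n G hG => ?_⟩
  rcases Nat.lt_or_ge n 2 with hn | hn
  · refine ⟨fun _ => 0, fun v => ?_, fun v w hvw => ?_⟩
    · push_cast
      positivity
    · exfalso
      apply hvw
      ext
      have := v.2
      have := w.2
      omega
  · obtain ⟨l, l1, l2⟩ := hF n G hG
    refine ⟨l, fun v => ?_, l2⟩
    refine lt_of_lt_of_le ?_ (hb n hn)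
    exact_mod_cast l1 v

end Pool.Agent.Helper58.LC
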