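import Pool.Agent.Helper58.LC.Ext2
import Pool.Agent.Helper58.LC.Plb

set_option autoImplicit false

namespace Pool.Agent.Helper58.LC

open SG

theorem num2 {q a : ℕ → ℕ} {C : ℝ} (hC : 0 < C) (hb : ∀ n : ℕ, 2 ≤ n →
    (bnd q a n : ℝ) ≤ 2 ^ (C * (n : ℝ) ^ (1 / 3 : ℝ) * Real.log n ^ 2)) (m : ℕ) (hm : 1 ≤ m) :
    ∃ C' : ℝ, 0 < C' ∧ ∀ n : ℕ, 2 ≤ n →
      (((max (2 * bnd q a (2 * m * n)) 1) ^ (2 ^ (2 * m)) : ℕ) : ℝ) ≤
        2 ^ (C' * (n : ℝ) ^ (1 / 3 : ℝ) * Real.log n ^ 2) := by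
  have hl2 : 0 < Real.log 2 := Real.log_pos (by norm_num)
  obtain ⟨κ, hκ⟩ : ∃ κ : ℝ, κ = Real.log (2 * m) / Real.log 2 + 1 := ⟨_, rfl⟩
  have hm' : (1 : ℝ) ≤ m := by exact_mod_cast hm
  have hlm : 0 ≤ Real.log (2 * m) := Real.log_nonneg (by linarith)
  have hκ1 : 1 ≤ κ := by
    rw [hκ]
    have : 0 ≤ Real.log (2 * m) / Real.log 2 := div_nonneg hlm hl2.le
    linarith
  refine ⟨(1 / Real.log 2 ^ 2 + C * (2 * m) * κ ^ 2) * 2 ^ (2 * m), by positivity,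
    fun n hn => ?_⟩
  have hn' : (2 : ℝ) ≤ n := by exact_mod_cast hn
  have hln : Real.log 2 ≤ Real.log n := Real.log_le_log (by norm_num) hn'
  have hN : 2 ≤ 2 * m * n := by nlinarith
  have h1 := hb (2 * m * n) hN
  have hcast : ((2 * m * n : ℕ) : ℝ) = 2 * m * n := by push_cast; ring
  rw [hcast] at h1
  have h2 : (2 * (m : ℝ) * n) ^ (1 / 3 : ℝ) ≤ 2 * m * (n : ℝ) ^ (1 / 3 : ℝ) := by
    rw [Real.mul_rpow (by positivity) (by positivity)]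
    refine mul_le_mul_of_nonneg_right ?_ (by positivity)
    calc (2 * (m : ℝ)) ^ (1 / 3 : ℝ) ≤ (2 * (m : ℝ)) ^ (1 : ℝ) :=
          Real.rpow_le_rpow_of_exponent_le (by linarith) (by norm_num)
      _ = 2 * m := Real.rpow_one _
  have h3 : Real.log (2 * m * n) ≤ κ * Real.log n := by
    rw [Real.log_mul (by positivity) (by positivity), hκ, add_mul, one_mul, div_mul_eq_mul_div]
    refine add_le_add ?_ le_rfl
    rw [le_div_iff₀ hl2]
    exact mul_le_mul_of_nonneg_left hln hlm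
  have h3' : 0 ≤ Real.log (2 * m * n) := Real.log_nonneg (by nlinarith)
  have h4 : Real.log (2 * m * n) ^ 2 ≤ κ ^ 2 * Real.log n ^ 2 := by
    rw [← mul_pow]
    exact pow_le_pow_left₀ h3' h3 2
  have h5 : 1 ≤ (n : ℝ) ^ (1 / 3 : ℝ) := Real.one_le_rpow (by linarith) (by norm_num)
  obtain ⟨A, hA⟩ : ∃ A : ℝ, A = (n : ℝ) ^ (1 / 3 : ℝ) := ⟨_, rfl⟩
  obtain ⟨L, hL⟩ : ∃ L : ℝ, L = Real.log n ^ 2 := ⟨_, rfl⟩
  have hL2 : Real.log 2 ^ 2 ≤ L := by rw [hL]; exact pow_le_pow_left₀ hl2.le hln 2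
  have h6 : (1 : ℝ) ≤ 1 / Real.log 2 ^ 2 * (A * L) := by
    rw [div_mul_eq_mul_div, one_mul, le_div_iff₀ (by positivity), one_mul]
    rw [← hA] at h5
    nlinarith [sq_nonneg (Real.log 2)]
  have h7 : C * (2 * (m : ℝ) * n) ^ (1 / 3 : ℝ) * Real.log (2 * m * n) ^ 2 ≤
      C * (2 * m) * κ ^ 2 * (A * L) := by
    rw [← hA] at h2
    rw [← hL] at h4
    calc C * (2 * (m : ℝ) * n) ^ (1 / 3 : ℝ) * Real.log (2 * m * n) ^ 2
        ≤ C * (2 * m * A) * (κ ^ 2 * L) := by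
          refine mul_le_mul (mul_le_mul_of_nonneg_left h2 hC.le) h4 (sq_nonneg _) ?_
          rw [hA]; positivity
      _ = C * (2 * m) * κ ^ 2 * (A * L) := by ring
  have h8 : (2 : ℝ) * bnd q a (2 * m * n) ≤
      2 ^ ((1 / Real.log 2 ^ 2 + C * (2 * m) * κ ^ 2) * (A * L)) := by
    calc (2 : ℝ) * bnd q a (2 * m * n) ≤ 2 ^ (1 : ℝ) *
          2 ^ (C * (2 * (m : ℝ) * n) ^ (1 / 3 : ℝ) * Real.log (2 * m * n) ^ 2) := by
          rw [Real.rpow_one]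
          exact mul_le_mul_of_nonneg_left h1 (by norm_num)
      _ = 2 ^ (1 + C * (2 * (m : ℝ) * n) ^ (1 / 3 : ℝ) * Real.log (2 * m * n) ^ 2) := by
          rw [Real.rpow_add (by norm_num)]
      _ ≤ _ := by
          refine Real.rpow_le_rpow_of_exponent_le (by norm_num) ?_
          rw [add_mul]
          exact add_le_add h6 h7
  have hE : 0 ≤ (1 / Real.log 2 ^ 2 + C * (2 * m) * κ ^ 2) * (A * L) := by
    rw [hA, hL]; positivity
  have h9 : ((max (2 * bnd q a (2 * m * n)) 1 : ℕ) : ℝ) ≤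
      2 ^ ((1 / Real.log 2 ^ 2 + C * (2 * m) * κ ^ 2) * (A * L)) := by
    push_cast
    refine max_le h8 (Real.one_le_rpow (by norm_num) hE)
  push_cast at h9 ⊢
  calc (max (2 * (bnd q a (2 * m * n) : ℝ)) 1) ^ (2 ^ (2 * m))
      ≤ (2 ^ ((1 / Real.log 2 ^ 2 + C * (2 * m) * κ ^ 2) * (A * L))) ^ (2 ^ (2 * m)) :=
        pow_le_pow_left₀ (le_trans zero_le_one (le_max_right _ _)) h9 _
    _ = _ := by
        rw [← Real.rpow_natCast, ← Real.rpow_mul (by norm_num), hA, hL]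
        congr 1
        push_cast
        ring

theorem fin2 (hP : PLB) (hE : ENC) (hN : NUM) (m : ℕ) (hm : 1 ≤ m)
    (F : (Fin m → Prop) → Prop) :
    ∃ (C : ℝ) (f : ℕ → ℕ → Prop), 0 < C ∧ ∀ n : ℕ, ∀ G : SimpleGraph (Fin n),
      SG.BoolSign m F n G → ∃ l : Fin n → ℕ,
        (∀ v, (l v : ℝ) < 2 ^ (C * (n : ℝ) ^ (1 / 3 : ℝ) * Real.log n ^ 2)) ∧
        ∀ v w : Fin n, v ≠ w → (G.Adj v w ↔ f (l v) (l w)) := by
  obtain ⟨q, a, C, hq, ha, h4, h3, hC, hb⟩ := hN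
  obtain ⟨f, hf⟩ := hP q a hq ha h4 h3
  have h1 := hE _ _ f hf
  obtain ⟨F', hF⟩ := boolS (sgn (bil h1)) m F
  obtain ⟨C', hC', hnum⟩ := num2 hC hb m hm
  refine ⟨C', F', hC', fun n G hG => ?_⟩
  rcases Nat.lt_or_ge n 2 with hn | hn
  · refine ⟨fun _ => 0, fun v => ?_, fun v w hvw => ?_⟩
    · push_cast
      positivity
    · exfalso
      apply hvw
      ext
      have := v.2
      have := w.2
      omega
  · obtain ⟨l, l1, l2⟩ := hF n G hG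
    refine ⟨l, fun v => ?_, l2⟩
    refine lt_of_lt_of_le ?_ (hnum n hn)
    have := l1 v
    unfold bnd
    exact_mod_cast this

end Pool.Agent.Helper58.LC
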