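import Pool.Agent.Helper58.LC.Defs

/-!
# Project LC: goals

Every goal is a closed proposition; its proof is in the docstring. A packet proves one goal and may
assume the goals named in its docstring.
-/

set_option autoImplicit false

open Classical

namespace Pool.Agent.Helper58.LC

open Finset

/-- Goal HS (0.6 h): hitting sets. Greedy. Call `k` heavy if `∑ w ≤ a ∑_{S k} w`. Claim by induction on `m`: some `R` with
`R.card ≤ m` such that at most `(1 - 1/a)^m * card ι` heavy `k` have `S k` disjoint from `R`: if `F` is the set of heavy `k` with `S k` disjoint from `R`, then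
`∑_v w v * #{k ∈ F : v ∈ S k} = ∑_{k ∈ F} w (S k) ≥ #F/a * ∑ w`, so some `v` is in at least `#F / a` of the sets; add it to `R`. For `m = a q`:
`2^q (1 - 1/a)^(a q) ≤ 2^q exp(-q) < 1`. -/
def HS : Prop := ∀ (V ι : Type) [Fintype V] [Fintype ι] (w : V → ℝ) (S : ι → Finset V) (a q : ℕ),
  (∀ v, 0 ≤ w v) → 1 ≤ a → 1 ≤ q → Fintype.card ι ≤ 2 ^ q → 0 < ∑ v, w v →
  ∃ R : Finset V, R.card ≤ a * q ∧ ∀ k, ∑ v, w v ≤ a * ∑ v ∈ S k, w v → ∃ v ∈ R, v ∈ S k

/-- Goal CC1 (0.6 h). Induction on `T`. For `insert i₀ T`: `A ↦ A.erase i₀` maps the new image to the old one, the fibres have at most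
two elements, and a fibre over `σ` has two elements only if some `j, j' ∈ Q` have the vector `σ` on `T`, `a i₀ * t j + b i₀ < 0` and
`0 ≤ a i₀ * t j' + b i₀`. There is at most one such `σ`: let `j, j'` and `k, k'` be such pairs for `σ`, `τ`. The set of all real `t` with the vector `σ` on `T` is convex
(an interval), the same for `τ`; if `σ ≠ τ` they are disjoint, so one lies entirely to the left of the other, but `{a i₀ t + b i₀ < 0}` and its complement are
half lines, and each of the two intervals meets both: contradiction. (E.g. `a i₀ > 0`: `t j, t k < θ ≤ t j', t k'`, `θ = - b i₀ / a i₀`, so both intervals contain `θ`.) -/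
def CC1 : Prop := ∀ (I J : Type) (a b : I → ℝ) (t : J → ℝ) (T : Finset I) (Q : Finset J),
  (Q.image (fun j => T.filter (fun i => a i * t j + b i < 0))).card ≤ T.card + 1

/-- Goal CC (0.8 h; assume CC1). Induction on `T`. For `insert i₀ T`, `T.card = s`: as in CC1 the new image has at most (old image) + (number of split `σ`)
elements, where `σ` is split if `j, j' ∈ Q` have the vector `σ` on `T`, `α j x₀ + β j < y₀` and `y₀ ≤ α j' x₀ + β j'` (`x₀ = x i₀`). A convex combination `(u, v)` of `(α j, β j)`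
and `(α j', β j')` has `u x₀ + v = y₀`, and its vector on `T` is `σ` again (both `<` and `≥` are preserved by convex combinations). As `v = y₀ - u x₀`:
`u x i + v < y i` iff `(x i - x₀) u + (y₀ - y i) < 0`. By CC1 (with `J := Finset I`, one `u` for each split `σ`) at most `s + 1` vectors `σ` are split.
`s^2 + 1 + (s + 1) ≤ (s + 1)^2 + 1`. -/
def CC : Prop := ∀ (I J : Type) (x y : I → ℝ) (α β : J → ℝ) (T : Finset I) (Q : Finset J),
  (Q.image (fun j => T.filter (fun i => α j * x i + β j < y i))).card ≤ T.card ^ 2 + 1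

/-- Goal SE (0.5 h; assume HS, CC): short edge. HS with `V = I`, `ι = Q × Q`, `S (j, j')` = the separating points: some `T` with at most `a q` points meets all
heavy `S (j, j')`. By CC the lines of `Q` have at most `(a q)^2 + 1 < Q.card` vectors on `T`, so two different lines have the same vector on `T`
(`Finset.exists_ne_map_eq_of_card_lt_of_maps_to`), so `S (j, j')` is disjoint from `T` and not heavy. -/
def SE : Prop := ∀ (I J : Type) [Fintype I] (x y : I → ℝ) (α β : J → ℝ) (w : I → ℝ) (Q : Finset J)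
  (a q : ℕ), (∀ i, 0 ≤ w i) → 0 < ∑ i, w i → 1 ≤ a → 1 ≤ q → Q.card ^ 2 ≤ 2 ^ q →
  (a * q) ^ 2 + 1 < Q.card → ∃ j ∈ Q, ∃ j' ∈ Q, j ≠ j' ∧
    a * ∑ i ∈ univ.filter (fun i => ¬ (α j * x i + β j < y i ↔ α j' * x i + β j' < y i)), w i ≤
      ∑ i, w i

/-- Goal INS (0.5 h). `l = l₁ ++ j' :: l₂` (`List.append_of_mem`), `l' = l₁ ++ j' :: j :: l₂`. Induction on `l₁`; for `l₁ = []` and `l₂ = d :: _`: if `g j ≠ g j'` the number of changes
among `j', j, d` is at most 2, otherwise it is the number of changes among `j', d`. -/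
def INS : Prop := ∀ (J : Type) (l : List J) (j j' : J), j' ∈ l → ∃ l' : List J,
  l'.Perm (j :: l) ∧ ∀ g : J → Bool, ch g l' ≤ ch g l + 2 * (if g j = g j' then 0 else 1)

/-- Goal WO1 (1 h; assume SE, INS). Induction on `k = Q.card`. `k = 0`: `l = []`; `k = 1`: `l = [j]`. If `∑ w = 0` any list will do (all terms are `0`). Let `k ≥ 2`. There are `j ≠ j'` in `Q` with
`√k * w(sep) ≤ 4 q ∑ w` (`sep` = the points `i` which separate `j, j'`): if `√k < 2 q + 2 ≤ 4 q` any pair; if `√k ≥ 2 q + 2` take SE with `a = ⌊(√k - 1)/q⌋₊`: `a q ≤ √k - 1`, so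
`(a q)^2 + 1 ≤ k - 2 √k + 2 < k`, and `a ≥ (√k - 1 - q)/q ≥ √k/(2 q)`. Let `w' = 4 w` on `sep`, `w' = w` elsewhere; `∑ w' ≤ (1 + 12 q/√k) ∑ w ≤ exp(12 q/√k) ∑ w`. The induction hypothesis for `Q.erase j` and `w'` gives a
list, INS inserts `j` next to `j'`: `2^(ch of the new list) ≤ 4^[i ∈ sep] 2^(ch of the old list)`. `12 q/√k + 24 q √(k-1) ≤ 24 q √k` because `√k - √(k-1) ≥ 1/(2 √k)`. -/
def WO1 : Prop := ∀ (I J : Type) [Fintype I] (x y : I → ℝ) (α β : J → ℝ) (q : ℕ) (Q : Finset J)
  (w : I → ℝ), (∀ i, 0 ≤ w i) → 1 ≤ q → Q.card ^ 2 ≤ 2 ^ q → ∃ l : List J, l.Nodup ∧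
    l.toFinset = Q ∧
    ∑ i, w i * 2 ^ ch (fun j => decide (α j * x i + β j < y i)) l ≤
      (∑ i, w i) * Real.exp (24 * q * √(Q.card : ℝ))

/-- Goal WO (0.4 h; assume WO1). WO1 with `w = 1`: `2^(ch) ≤ card I * exp(24 q √(Q.card)) ≤ 2^q exp(24 q a)`, and `exp 24 ≤ 2^35` (`24 ≤ 35 log 2`, `log 2 > 0.6931`), so `ch ≤ q + 35 q a ≤ 36 q a`. -/
def WO : Prop := ∀ (I J : Type) [Fintype I] (x y : I → ℝ) (α β : J → ℝ) (Q : Finset J) (a q : ℕ),
  1 ≤ a → 1 ≤ q → Fintype.card I ≤ 2 ^ q → Q.card ^ 2 ≤ 2 ^ q → Q.card ≤ a ^ 2 →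
  ∃ l : List J, l.Nodup ∧ l.toFinset = Q ∧
    ∀ i, ch (fun j => decide (α j * x i + β j < y i)) l ≤ 36 * q * a

/-- Goal NBX (0.5 h). For every `i`: `a` minimizes `ln r (x i)` among the `r ∈ R` with `y i < ln r (x i)` (`ju` is such an `r`), `b` maximizes `ln r (x i)` among the `r ∈ R` with
`ln r (x i) < y i` (`jd`). Every other `r ∈ R` is above or below the point by `off`; strict inequalities by `gp`. -/
def NBX : Prop := ∀ (I J : Type) (c : Cfg I J) (R : Finset J), c.ju ∈ R → c.jd ∈ R →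
  Nonempty (c.Cho R)

/-- Goal CMP (0.3 h). `(α j - α k) (x i - X j k) = ln j (x i) - ln k (x i)`; more generally for every `t` in place of `x i` (the version stated here); `α j ≠ α k` by `slope`. -/
def CMP : Prop := ∀ (I J : Type) (c : Cfg I J) (t : ℝ) (j k : J), j ≠ k →
  (c.ln j t < c.ln k t ↔ (c.α j < c.α k ∧ c.X j k < t) ∨ (c.α k < c.α j ∧ t < c.X j k)) ∧
  (c.ln j t = c.ln k t ↔ t = c.X j k) ∧ c.X j k = c.X k j

/-- Goal K1 (0.6 h; assume CMP). Let `a, b` be the neighbours (the same for `i` and `k`, first two components of the key). `r ≠ a, b` by the strict inequalities. By `nb i` either `ln a < ln r` or `ln r < ln b` at `x i`.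
First case: `ln a < ln r` at `x i` and `ln r < ln a` at `t`, so `X a r ∈ (x i, t)`, `X a r < x k`, hence `cnt a (x i) < cnt a (x k)` (strict inclusion of the
filters), and `cnt b (x i) ≤ cnt b (x k)`: the keys differ. Second case: the same with `b`. -/
def K1 : Prop := ∀ (I J : Type) (c : Cfg I J) (R : Finset J) (h : c.Cho R) (i k : I) (t : ℝ)
  (r : J), h.key i = h.key k → c.x i ≤ t → t ≤ c.x k → r ∈ R →
  ¬ (c.ln (h.b i) t < c.ln r t ∧ c.ln r t < c.ln (h.a i) t)

/-- Goal SMP (0.7 h; assume HS, K1). HS with `V = J`, `w = 1`, `ι = J × J × I × I`, `S (a, b, i, k)` = the lines `l` with `ln b t < ln l t < ln a t` for some `t ∈ [x i, x k]`, gives `R₀`; `R = insert ju (insert jd R₀)`. Let `h : Cho R`.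
For `κ = h.key i₀` let `i`, `k` be points with the key `κ` and minimal resp. maximal `x` (`I` is finite), `D κ = S (h.a i₀, h.b i₀, i, k)`; for other `κ` let `D κ = ∅`. By K1 `R` is disjoint from `D κ`, so
`a * (D κ).card < card J`. If `h.und i' l` then `x i' ∈ [x i, x k]` for the extreme points of `κ = h.key i'`, so `l ∈ D κ`. (`card J > 0` because of `ju`.) -/
def SMP : Prop := ∀ (I J : Type) [Fintype I] [Fintype J] (c : Cfg I J) (a q : ℕ), 1 ≤ a → 1 ≤ q →
  Fintype.card J ^ 2 * Fintype.card I ^ 2 ≤ 2 ^ q → ∃ R : Finset J, R.card ≤ a * q + 2 ∧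
    c.ju ∈ R ∧ c.jd ∈ R ∧ ∀ h : c.Cho R, ∃ D : J × J × ℕ → Finset J,
      (∀ κ, a * (D κ).card ≤ Fintype.card J) ∧ ∀ i l, h.und i l → l ∈ D (h.key i)

/-! ## The zone of a line -/

/-- Goal UNQ (0.2 h). `ln b t < h < ln a' t`, so `a' ≠ b`; if `a' ≠ a` then `ln a t < ln a' t` (the other case `ln a' t < ln b t < h < ln a' t` is impossible). By symmetry `ln a' t < ln a t`:
contradiction. The same for `b`. -/
def UNQ : Prop := ∀ (I J : Type) (c : Cfg I J) (R : Finset J) (t h : ℝ) (a b a' b' : J),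
  c.Nb R t h a b → c.Nb R t h a' b' → a = a' ∧ b = b'

/-- No crossing on `a` or `b` with `R`, or of `l` with `a` or `b`, has its abscissa in `[t, s)`. -/
def Free {I J : Type} (c : Cfg I J) (R : Finset J) (l a b : J) (t s : ℝ) : Prop :=
  (∀ r ∈ R, r ≠ a → c.X a r < t ∨ s ≤ c.X a r) ∧ (∀ r ∈ R, r ≠ b → c.X b r < t ∨ s ≤ c.X b r) ∧
    (c.X l a < t ∨ s ≤ c.X l a) ∧ (c.X l b < t ∨ s ≤ c.X l b)

/-- Goal PROP (0.6 h; assume CMP). `l ≠ a, b` by the strict inequalities at `s`. An inequality `ln j s < ln k s` (`j ≠ k`) with `X j k ∉ [t, s)`, hence `X j k ∉ [t, s]`, gives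
`ln j t < ln k t` by CMP. Use it for the pairs `(l, a)`, `(b, l)`, `(a, r)`, `(r, b)`. The counts: the filters are equal because `X a r < t ↔ X a r < s`. -/
def PROP : Prop := ∀ (I J : Type) (c : Cfg I J) (R : Finset J) (l a b : J) (t s : ℝ), t ≤ s →
  c.Nb R s (c.ln l s) a b → Free c R l a b t s →
  c.Nb R t (c.ln l t) a b ∧ c.cnt R a t = c.cnt R a s ∧ c.cnt R b t = c.cnt R b s

/-- Type 3: `l` is less steep than `a`, `a` less steep than `r = o`, they cross at `e` above `l`. -/
def T3 {I J : Type} (c : Cfg I J) (R : Finset J) (l a : J) (e : ℝ) (o : Option J) : Prop :=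
  ∃ r ∈ R, r ≠ a ∧ c.X a r = e ∧ c.α a < c.α r ∧ c.α l < c.α a ∧ c.ln l e < c.ln a e ∧ o = some r

/-- Type 4: `a` is less steep than `r`, `r` less steep than `l`, `o = a`. -/
def T4 {I J : Type} (c : Cfg I J) (R : Finset J) (l a : J) (e : ℝ) (o : Option J) : Prop :=
  ∃ r ∈ R, r ≠ a ∧ c.X a r = e ∧ c.α a < c.α r ∧ c.α r < c.α l ∧ c.ln l e < c.ln a e ∧ o = some a

/-- Type 5: `a` is less steep than `l`, `l` less steep than `r`, `o` = the last line of `R` which
meets `l` at an abscissa `≤ e`. -/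
def T5 {I J : Type} (c : Cfg I J) (R : Finset J) (l a : J) (e : ℝ) (o : Option J) : Prop :=
  ∃ r ∈ R, r ≠ a ∧ c.X a r = e ∧ c.α a < c.α l ∧ c.α l < c.α r ∧ c.ln l e < c.ln a e ∧
    ((o = none ∧ ∀ k ∈ R, e < c.X l k) ∨ ∃ d ∈ R, o = some d ∧ c.X l d ≤ e ∧
      ∀ k ∈ R, c.X l k ≤ e → c.X l k ≤ c.X l d)

/-- Goal UN3 (0.4 h). By symmetry let `e < e'`; `T3` for `(a, e)` and `(a', e')` with the same `r`. Near `e` on the right `ln l < ln a` (`Nb`), and `a` is steeper than `l`, so `ln l < ln a` for all `t > e`, in particular at `e'`; `r` is steeper than `a` and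
`ln r e = ln a e`, so `ln a e' < ln r e' = ln a' e'`. By continuity `ln l t < ln a t < ln a' t` for `t > e'` close to `e'`, `t < s'`; but `a ∈ R`, `a ≠ a'`, `a ≠ b'` (as `ln b' t < ln l t`), so `Nb` for `(a', b')`
gives `ln a' t < ln a t` or `ln a t < ln b' t < ln l t`: contradiction. -/
def UN3 : Prop := ∀ (I J : Type) (c : Cfg I J) (R : Finset J) (l a b a' b' : J) (e s e' s' : ℝ)
  (o : Option J), e < s → e' < s' → (∀ t, e < t → t < s → c.Nb R t (c.ln l t) a b) →
  (∀ t, e' < t → t < s' → c.Nb R t (c.ln l t) a' b') → T3 c R l a e o → T3 c R l a' e' o → e = e'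

/-- Goal UN4 (0.4 h). By symmetry let `e < e'`; here `a = a'` (from `o`), `r, r'` the other lines. `ln r' e' = ln a e' > ln l e'`, `α r' < α l`, so `ln l t < ln r' t` for all `t < e'`; `α a < α r'` and `ln r' e' = ln a e'`, so
`ln r' t < ln a t` for `t < e'`. For `t ∈ (e, min s e')`: `ln l t < ln r' t < ln a t`, `r' ∈ R`, `r' ≠ a`, `r' ≠ b`: contradiction to `Nb R t (ln l t) a b`. -/
def UN4 : Prop := ∀ (I J : Type) (c : Cfg I J) (R : Finset J) (l a b a' b' : J) (e s e' s' : ℝ)
  (o : Option J), e < s → e' < s' → (∀ t, e < t → t < s → c.Nb R t (c.ln l t) a b) →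
  (∀ t, e' < t → t < s' → c.Nb R t (c.ln l t) a' b') → T4 c R l a e o → T4 c R l a' e' o → e = e'

/-- Goal UN5 (0.6 h; assume CMP). By symmetry let `e < e'`, `r, r'` the other lines. `ln r' e' = ln a' e' > ln l e'`, `r'` is steeper than `l`. `ln l e < ln a e`, `a` less steep than `l`. If `X l r' ∈ (e, e']` or `X l a ∈ (e, e']` then the two values
of `o` differ: for `e'` the last line met by `l` at an abscissa `≤ e'` is `some d` with `X l d > e`, for `e` it is `none` or some `d` with `X l d ≤ e`. Otherwise: `X l r' ≤ e'` (as `ln l e' < ln r' e'` and `r'` is steeper than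
`l`), so `X l r' ≤ e`; and `X l a > e` (CMP at `e`), so `X l a > e'`, hence `ln l e' < ln a e'`. For `t > e` close to `e`: `ln l t < ln r' t`, so by `Nb` (for `a, b`) `r' = a` or `ln a t < ln r' t`; `r' ≠ a` by the slopes. As `a` is less steep than `r'`:
`ln a e' < ln r' e' = ln a' e'`. So `ln l t < ln a t < ln a' t` for `t > e'` close to `e'`: contradiction to `Nb` for `a', b'`, as in UN3. -/
def UN5 : Prop := ∀ (I J : Type) (c : Cfg I J) (R : Finset J) (l a b a' b' : J) (e s e' s' : ℝ)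
  (o : Option J), e < s → e' < s' → (∀ t, e < t → t < s → c.Nb R t (c.ln l t) a b) →
  (∀ t, e' < t → t < s' → c.Nb R t (c.ln l t) a' b') → T5 c R l a e o → T5 c R l a' e' o → e = e'

/-- Goal TYP (0.5 h; assume CMP). `l ∉ R`: otherwise `l ≠ a, b` and `Nb` at a `t ∈ (e, s)` gives `ln a t < ln l t` or `ln l t < ln b t`: contradiction. By continuity from the right `ln l e ≤ ln a e`, and `≠` because `X l a ≠ e` (CMP), so `ln l e < ln a e = ln r e`. For `t > e` close to `e`:
`ln l t < ln r t`, so `r ≠ b` and by `Nb` `ln a t < ln r t`; with `ln a e = ln r e`: `α a < α r`. By `slope` `α l ≠ α a`, `α l ≠ α r`. The three cases. In T5 the last line exists because `R` is finite (`Finset.exists_max_image` on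
`R.filter (X l · ≤ e)`, `none` if the filter is empty). -/
def TYP : Prop := ∀ (I J : Type) (c : Cfg I J) (R : Finset J) (l a b r : J) (e s : ℝ), e < s →
  (∀ t, e < t → t < s → c.Nb R t (c.ln l t) a b) → r ∈ R → r ≠ a → c.X a r = e → c.X l a ≠ e →
  ∃ o : Option J, (∀ d, o = some d → d ∈ R) ∧
    (T3 c R l a e o ∨ T4 c R l a e o ∨ T5 c R l a e o)

/-- Goal ZONE (1.2 h; assume CMP, UNQ, PROP, UN3, UN4, UN5, TYP). If `h.und i l` then `Nb R (x i) (ln l (x i)) (a i) (b i)`. Let `E` be the finite set of the abscissae `< x i` of the crossings of `a i` and `b i` with the other lines of `R` and of `l` with `a i`, `b i`. If `E` is empty: code `(0, none)`, `Free t (x i)` for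
all `t < x i`. Otherwise `e = max E`, `Free t (x i)` for all `t ∈ (e, x i)`, so by PROP `Nb R t (ln l t) (a i) (b i)` there. Codes: `X l a = e`: `(1, some a)`; else `X l b = e`: `(2, some b)`; else `e = X a r`: by TYP types `3, 4, 5` with `o`; else `e = X b r`: TYP for `c.neg`
(where `a` and `b` change places, `Nb c.neg R t (-h) b a ↔ Nb c R t h a b`, `c.neg.X = c.X`) types `6, 7, 8`. If two undecided points `i, k` have the same code then they have the same `e` (code 1: `e = X l a`, ...; UN3 - UN5 for `c` or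
`c.neg`), so both are `Free` on `[t, x i)`, `[t, x k)` for a common `t` (`t > e` close to `e`; or `t` very negative for the code 0), so by PROP and UNQ `a i = a k`, `b i = b k`, and the counts at `x i` and `x k` are those at `t`: the keys are equal. So the keys of the undecided points inject into
`Fin 9 × (insert none (R.image some))`, which has `9 (R.card + 1)` elements. -/
def ZONE : Prop := ∀ (I J : Type) [Fintype I] (c : Cfg I J) (R : Finset J) (h : c.Cho R) (l : J),
  ((univ.filter (fun i => h.und i l)).image h.key).card ≤ 9 * (R.card + 1)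

/-! ## The labels -/

/-- Goal REP (0.2 h). `S.equivFin`, `none` for the other `k`. -/
def REP : Prop := ∀ (T : Type) (S : Finset T) (H : ℕ), S.card ≤ H →
  ∃ g : Fin H → Option T, ∀ x, x ∈ S ↔ ∃ k, g k = some x

/-- Goal CHG (0.5 h). `F v T k = xor v (decide (Odd (T.filter (· < k)).card))`, `v = g l[0]`, `T` = the `t` with `t + 1 < l.length` and `g l[t] ≠ g l[t+1]`. Induction on the list (shift `T` by one) or on `k`. -/
def CHG : Prop := ∃ F : Bool → Finset ℕ → ℕ → Bool, ∀ (J : Type) (l : List J) (g : J → Bool),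
  ∃ (v : Bool) (T : Finset ℕ), T.card ≤ ch g l ∧ (∀ t ∈ T, t < l.length) ∧
    ∀ (k : ℕ) (hk : k < l.length), g (l.get ⟨k, hk⟩) = F v T k

/-- Goal RNK (0.2 h). If `t < x i` the first filter is contained in the second one. If `x i < t` the second filter is a proper subset of the first one (`i`). -/
def RNK : Prop := ∀ (I : Type) [Fintype I] (x : I → ℝ) (i : I) (t : ℝ), t ≠ x i →
  (t < x i ↔ (univ.filter (fun k => x k < t)).card ≤ (univ.filter (fun k => x k < x i)).card)

/-- Goal DEC (1.5 h; assume SMP, NBX, ZONE, WO, REP, CHG, RNK, CMP). `S = a q + 2`. SMP gives `R`, NBX `h`, and then `D`; `a * (D κ).card ≤ B ≤ a^3`, so `(D κ).card ≤ a^2`; WO gives lists `L κ` of `D κ`. An enumeration `ρ : Fin S → J` with range `R` (`R` is not empty) and `ix : J → Fin S` with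
`ρ (ix r) = r` for `r ∈ R`. Key code of `i`: `(ix (a i), ix (b i), count)` (the count is at most `2 R.card`). Label of the line `l`: for `k : Fin S`: `0` if `ρ k = l`, `1` if `α l < α (ρ k)`, `2` otherwise, and the number of points `i` with `x i < X l (ρ k)`; and the set of all pairs (key code of `i`, index of
`l` in `L (key i)`) for the undecided `i` (at most `9 (R.card + 1)` pairs by ZONE, REP). Label of the point `i`: its key code, the number of `k` with `x k < x i`, and `v`, `T` of CHG for the list `L (key i)` (REP). Decoding: `l` below `a i` at `x i` is decided by the entry `ix (a i)` (CMP, RNK; `X l r ≠ x i` by `gp`),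
`b i` below `l` in the same way; if `l` is not below `a i` (at `x i`) then the point is below `l`, not `U`; if `l` is below `a i` and `b i` is not below `l` then `U`; otherwise look for a pair with the key code of `i` in the label of `l` (all such pairs have the same second component) and use `F`. -/
def DEC : Prop := ∀ B q a : ℕ, 1 ≤ q → 1 ≤ a → B ^ 4 ≤ 2 ^ q → B ≤ a ^ 3 →
  ∃ dec : LabP B (a * q + 2) (36 * q * a) → LabL B (a * q + 2) (9 * (a * q + 3)) → Prop,
    ∀ (I J : Type) [Fintype I] [Fintype J] (c : Cfg I J), Fintype.card I ≤ B →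
      Fintype.card J ≤ B → ∃ (lp : I → LabP B (a * q + 2) (36 * q * a))
        (ll : J → LabL B (a * q + 2) (9 * (a * q + 3))), ∀ i j, dec (lp i) (ll j) ↔ c.U i j

/-- Goal GPP (0.8 h). Choose `α ju`, `α jd` different from each other and from all `α j`, then `β ju` large and `β jd` very negative. Then shift all points by the same small `e > 0` to the right (`x i + e`): the strict inequalities are kept for small `e`, and `x i + e ≠ X j k` for all `i`, `j ≠ k`, because
there are only finitely many values `X j k - x i` to avoid. (`∀ᶠ e in 𝓝[>] 0`, as in `robust` of Pool/Agent/Helper58/SG/Main3.lean.) -/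
def GPP : Prop := ∀ (I J : Type) [Finite I] [Finite J] (x y : I → ℝ) (α β : J → ℝ),
  (∀ j k, α j = α k → j = k) → (∀ i j, α j * x i + β j ≠ y i) →
  ∃ c : Cfg I (J ⊕ Bool), ∀ i j, c.U i (Sum.inl j) ↔ α j * x i + β j < y i

/-- Goal PLB (0.7 h; assume DEC, GPP). `I` = the vertices with `c v = false`, `J` = those with `c v = true`; `robust` (Pool/Agent/Helper58/SG/Main3.lean) makes the configuration strict, with different slopes, without changing the graph; GPP; `card I ≤ n`, `card (J ⊕ Bool) ≤ n + 2`. A vertex is labelled with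
`Sum.inl (lp v)` or `Sum.inr (ll v)`; the rule compares a point with a line by `dec` and is false for two points or two lines. -/
def PLB : Prop := ∀ (q a : ℕ → ℕ), (∀ n, 1 ≤ q n) → (∀ n, 1 ≤ a n) →
  (∀ n, (n + 2) ^ 4 ≤ 2 ^ q n) → (∀ n, n + 2 ≤ a n ^ 3) →
  ∃ f : ∀ n, (LabP (n + 2) (a n * q n + 2) (36 * q n * a n) ⊕
      LabL (n + 2) (a n * q n + 2) (9 * (a n * q n + 3))) →
    (LabP (n + 2) (a n * q n + 2) (36 * q n * a n) ⊕
      LabL (n + 2) (a n * q n + 2) (9 * (a n * q n + 3))) → Prop,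
    ∀ (n : ℕ) (G : SimpleGraph (Fin n)), SG.PointLine n G →
      ∃ l : Fin n → (LabP (n + 2) (a n * q n + 2) (36 * q n * a n) ⊕
        LabL (n + 2) (a n * q n + 2) (9 * (a n * q n + 3))),
        ∀ v w, v ≠ w → (G.Adj v w ↔ f n (l v) (l w))

/-- Goal ENC (0.4 h). The label `Nat.pair n (number of the old label)` (`Fintype.equivFin`); the rule decodes `n` from the first argument. `Nat.pair_lt_max_add_one_sq`. -/
def ENC : Prop := ∀ (T : ℕ → Type) [∀ n, Fintype (T n)] (C : SG.Cls)
  (f : ∀ n, T n → T n → Prop), (∀ (n : ℕ) (G : SimpleGraph (Fin n)), C n G →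
    ∃ l : Fin n → T n, ∀ v w, v ≠ w → (G.Adj v w ↔ f n (l v) (l w))) →
  Lab (fun n => (max n (Fintype.card (T n)) + 1) ^ 2) C

/-- Goal RED (0.5 h). As `seg_of_pointLine` in Pool/Agent/Helper58/SG/Main2.lean (copy it), with `b (3 n)` in place of `(3 n)^k`. -/
def RED : Prop := ∀ b : ℕ → ℕ, Lab b SG.PointLine →
  Lab (fun n => (max (b (3 * n)) (2 * n + 3)) ^ 8) SG.Seg

/-- The bound of the labels of segment graphs (before simplification). -/
def bnd (q a : ℕ → ℕ) (n : ℕ) : ℕ :=
  (max ((max (3 * n) (Fintype.card (LabP (3 * n + 2) (a (3 * n) * q (3 * n) + 2)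
      (36 * q (3 * n) * a (3 * n)) ⊕ LabL (3 * n + 2) (a (3 * n) * q (3 * n) + 2)
      (9 * (a (3 * n) * q (3 * n) + 3)))) + 1) ^ 2) (2 * n + 3)) ^ 8

/-- Goal NUM (1 h). `q n = 4 * Nat.clog 2 (n + 2)`, `a n = ⌈(n + 2)^(1/3)⌉₊`. With `N = 3 n + 2`, `S = a q + 2`: `card LabP = S * S * (2 S + 1) * (N + 1) * 2 * (N + 1)^(36 q a)`, `card LabL = (3 (N + 1))^S * (S * S * (2 S + 1) * (N + 1) + 1)^(9 (a q + 3))` (`simp [Fintype.card_prod, ...]`); `S ≤ (N + 1)^6`
or so, all factors are at most `(N + 1)^(C a q)`, so `bnd ≤ (N + 1)^(C a q) = 2^(C a q log2 (N + 1))`, and for `n ≥ 2`: `a ≤ 4 n^(1/3)`, `q ≤ C log n`, `log2 (3 n + 3) ≤ C log n`. -/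
def NUM : Prop := ∃ (q a : ℕ → ℕ) (C : ℝ), (∀ n, 1 ≤ q n) ∧ (∀ n, 1 ≤ a n) ∧
  (∀ n, (n + 2) ^ 4 ≤ 2 ^ q n) ∧ (∀ n, n + 2 ≤ a n ^ 3) ∧ 0 < C ∧ ∀ n : ℕ, 2 ≤ n →
    (bnd q a n : ℝ) ≤ 2 ^ (C * (n : ℝ) ^ (1 / 3 : ℝ) * Real.log n ^ 2)

end Pool.Agent.Helper58.LC
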