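import Pool.Agent.Helper58.LC.Goals

set_option autoImplicit false

namespace Pool.Agent.Helper58.LC

open SG

theorem labels {bd : ℕ → ℕ} {f : ℕ → ℕ → Prop}
    (hf : ∀ n : ℕ, ∀ G : SimpleGraph (Fin n), PointLine n G →
      ∃ l : Fin n → ℕ, (∀ v, l v < bd n) ∧ ∀ v w : Fin n, v ≠ w → (G.Adj v w ↔ f (l v) (l w)))
    (n : ℕ) (x y : Fin 3 × Fin n → ℝ) :
    ∃ l : Fin 3 × Fin n → ℕ, (∀ u, l u < bd (3 * n)) ∧ ∀ i v w, i ≠ 2 →
      (f (l (i, v)) (l (2, w)) ↔ x (2, w) * x (i, v) + y (2, w) ≤ y (i, v)) := by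
  obtain ⟨l, h1, h2⟩ := hf (3 * n) (plGraph (fun u => decide ((finProdFinEquiv.symm u).1 = 2))
    (fun u => x (finProdFinEquiv.symm u)) (fun u => y (finProdFinEquiv.symm u)))
    ⟨_, _, _, fun v w => Iff.rfl⟩
  refine ⟨fun u => l (finProdFinEquiv u), fun u => h1 _, fun i v w hi => ?_⟩
  have hne : (finProdFinEquiv (i, v) : Fin (3 * n)) ≠ finProdFinEquiv (2, w) := by
    intro h
    have := finProdFinEquiv.injective h
    exact hi (congrArg Prod.fst this)
  rw [← h2 _ _ hne]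
  show (_ ∨ _) ↔ _
  simp only [Equiv.symm_apply_apply, decide_true, decide_eq_false_iff_not, decide_eq_true_eq,
    true_and]
  constructor
  · rintro (⟨-, h⟩ | ⟨h, -⟩)
    · exact h
    · cases h
  · intro h; exact Or.inl ⟨hi, h⟩

theorem red : RED := by
  intro bd h
  obtain ⟨f, hf⟩ := h
  refine ⟨test f, fun n G hG => ?_⟩
  obtain ⟨p, q, hrep⟩ := hG
  rcases Nat.lt_or_ge n 2 with hn | hn
  · refine ⟨fun _ => 0, fun v => Nat.pow_pos (lt_of_lt_of_le (Nat.succ_pos _) (le_max_right _ _)),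
      fun v w hvw => ?_⟩
    · exfalso
      apply hvw
      ext
      have := v.2
      have := w.2
      omega
  obtain ⟨P, Q, a, b, h1, h2⟩ := straighten p q
  obtain ⟨A, hA1, hA2⟩ := labels hf n
    (fun u => if u.1 = 0 then (P u.2).1 else if u.1 = 1 then (Q u.2).1 else a u.2)
    (fun u => if u.1 = 0 then (P u.2).2 else if u.1 = 1 then (Q u.2).2 else b u.2)
  obtain ⟨B, hB1, hB2⟩ := labels hf n
    (fun u => if u.1 = 0 then (P u.2).1 else if u.1 = 1 then (Q u.2).1 else - a u.2)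
    (fun u => if u.1 = 0 then - (P u.2).2 else if u.1 = 1 then - (Q u.2).2 else - b u.2)
  -- the four kinds of tests
  have tAP : ∀ v w, f (A (0, v)) (A (2, w)) ↔ a w * (P v).1 + b w ≤ (P v).2 := by
    intro v w
    have := hA2 0 v w (by decide)
    simpa using this
  have tAQ : ∀ v w, f (A (1, v)) (A (2, w)) ↔ a w * (Q v).1 + b w ≤ (Q v).2 := by
    intro v w
    have := hA2 1 v w (by decide)
    simpa using this
  have tBP : ∀ v w, f (B (0, v)) (B (2, w)) ↔ (P v).2 ≤ a w * (P v).1 + b w := by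
    intro v w
    have h3 := hB2 0 v w (by decide)
    have h4 : f (B (0, v)) (B (2, w)) ↔ - a w * (P v).1 + - b w ≤ - (P v).2 := by
      simpa using h3
    rw [h4]
    constructor <;> intro h5 <;> linarith
  have tBQ : ∀ v w, f (B (1, v)) (B (2, w)) ↔ (Q v).2 ≤ a w * (Q v).1 + b w := by
    intro v w
    have h3 := hB2 1 v w (by decide)
    have h4 : f (B (1, v)) (B (2, w)) ↔ - a w * (Q v).1 + - b w ≤ - (Q v).2 := by
      simpa using h3
    rw [h4]
    constructor <;> intro h5 <;> linarith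
  obtain ⟨code, hcode⟩ : ∃ code : Fin n → ℕ, ∀ v, code v = enc (rk P Q (P v).1) (rk P Q (Q v).1)
      (A (0, v)) (A (1, v)) (A (2, v)) (B (0, v)) (B (1, v)) (B (2, v)) := ⟨_, fun _ => rfl⟩
  refine ⟨code, fun v => ?_, fun v w hvw => ?_⟩
  · have hB0 : bd (3 * n) ≤ max (bd (3 * n)) (2 * n + 3) := le_max_left _ _
    have hr : 2 * n < max (bd (3 * n)) (2 * n + 3) :=
      lt_of_lt_of_le (by omega) (le_max_right _ _)
    rw [hcode]
    exact enc_lt (lt_of_le_of_lt (rk_le P Q _) hr) (lt_of_le_of_lt (rk_le P Q _) hr)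
      (lt_of_lt_of_le (hA1 _) hB0) (lt_of_lt_of_le (hA1 _) hB0)
      (lt_of_lt_of_le (hA1 _) hB0) (lt_of_lt_of_le (hB1 _) hB0)
      (lt_of_lt_of_le (hB1 _) hB0) (lt_of_lt_of_le (hB1 _) hB0)
  · rw [hrep v w hvw, h2 v w, crit (h1 v).1 (h1 v).2.1 (h1 v).2.2 (h1 w).1 (h1 w).2.1 (h1 w).2.2]
    have e1 : ∀ u, c1 (code u) = rk P Q (P u).1 := by intro u; rw [hcode]; simp [enc, c1]
    have e2 : ∀ u, c2 (code u) = rk P Q (Q u).1 := by intro u; rw [hcode]; simp [enc, c2]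
    have e3 : ∀ u, c3 (code u) = A (0, u) := by intro u; rw [hcode]; simp [enc, c3]
    have e4 : ∀ u, c4 (code u) = A (1, u) := by intro u; rw [hcode]; simp [enc, c4]
    have e5 : ∀ u, c5 (code u) = A (2, u) := by intro u; rw [hcode]; simp [enc, c5]
    have e6 : ∀ u, c6 (code u) = B (0, u) := by intro u; rw [hcode]; simp [enc, c6]
    have e7 : ∀ u, c7 (code u) = B (1, u) := by intro u; rw [hcode]; simp [enc, c7]
    have e8 : ∀ u, c8 (code u) = B (2, u) := by intro u; rw [hcode]; simp [enc, c8]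
    unfold test
    simp only [e1, e2, e3, e4, e5, e6, e7, e8]
    rw [rk_iff P Q (Or.inr ⟨w, rfl⟩), rk_iff P Q (Or.inr ⟨v, rfl⟩)]
    simp only [rk_iff P Q (Or.inl ⟨v, rfl⟩ : (∃ u, (P u).1 = (P v).1) ∨ ∃ u, (Q u).1 = (P v).1),
      rk_iff P Q (Or.inr ⟨w, rfl⟩ : (∃ u, (P u).1 = (Q w).1) ∨ ∃ u, (Q u).1 = (Q w).1),
      tAP, tAQ, tBP, tBQ]

end Pool.Agent.Helper58.LC
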