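import Pool.Agent.Helper58.LC.Easy

set_option autoImplicit false

open Classical Finset

namespace Pool.Agent.Helper58.LC

variable {I J : Type}

theorem cnt_mono (c : Cfg I J) (R : Finset J) (a : J) {s t : ℝ} (h : s ≤ t) :
    c.cnt R a s ≤ c.cnt R a t :=
  card_le_card (monotone_filter_right _ fun _ _ hk => ⟨hk.1, lt_of_lt_of_le hk.2 h⟩)

theorem cnt_lt (c : Cfg I J) {R : Finset J} {a r : J} (hr : r ∈ R) (hra : r ≠ a) {s t : ℝ}
    (h1 : s ≤ c.X a r) (h2 : c.X a r < t) : c.cnt R a s < c.cnt R a t := by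
  refine card_lt_card ⟨monotone_filter_right _ fun k _ hk =>
    ⟨hk.1, lt_trans hk.2 (lt_of_le_of_lt h1 h2)⟩, fun h5 => ?_⟩
  have := h5 (mem_filter.mpr ⟨hr, hra, h2⟩)
  exact absurd (mem_filter.mp this).2.2 (not_lt.mpr h1)

/-- two lines change their order between `s` and `t` -/
theorem cross (c : Cfg I J) {j k : J} {s t : ℝ} (hst : s ≤ t) (h1 : c.ln j s < c.ln k s)
    (h2 : c.ln k t < c.ln j t) : s < c.X j k ∧ c.X j k < t := by
  have hjk : j ≠ k := by rintro rfl; exact lt_irrefl _ h1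
  obtain ⟨p1, -, -⟩ := cmp I J c s j k hjk
  obtain ⟨q1, -, q3⟩ := cmp I J c t k j hjk.symm
  rw [q3] at q1
  have e1 := p1.mp h1
  have e2 := q1.mp h2
  rcases e1 with ⟨a1, a2⟩ | ⟨a1, a2⟩ <;> rcases e2 with ⟨b1, b2⟩ | ⟨b1, b2⟩
  · exact absurd a1 (not_lt.mpr b1.le)
  · linarith
  · exact ⟨a2, b2⟩
  · exact absurd a1 (not_lt.mpr b1.le)

theorem k1 : K1 := by
  intro I J c R h i k t r hkey hit htk hr ⟨h1, h2⟩
  have hik : c.x i ≤ c.x k := le_trans hit htk
  have e1 : h.a i = h.a k := congrArg Prod.fst hkey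
  have e2 : h.b i = h.b k := congrArg (fun z => z.2.1) hkey
  have e3 : c.cnt R (h.a i) (c.x i) + c.cnt R (h.b i) (c.x i) =
      c.cnt R (h.a k) (c.x k) + c.cnt R (h.b k) (c.x k) := congrArg (fun z => z.2.2) hkey
  rw [← e1, ← e2] at e3
  have hra : r ≠ h.a i := by rintro rfl; exact lt_irrefl _ h2
  have hrb : r ≠ h.b i := by rintro rfl; exact lt_irrefl _ h1
  have m1 := cnt_mono c R (h.a i) hik
  have m2 := cnt_mono c R (h.b i) hik
  rcases (h.nb i).2.2.2.2 r hr hra hrb with h3 | h3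
  · obtain ⟨c1, c2⟩ := cross c hit h3 h2
    have := cnt_lt c hr hra c1.le (lt_of_lt_of_le c2 htk)
    omega
  · obtain ⟨c1, c2⟩ := cross c hit h3 h1
    rw [(cmp _ _ c 0 r (h.b i) hrb).2.2] at c1 c2
    have := cnt_lt c hr hrb c1.le (lt_of_lt_of_le c2 htk)
    omega

/-- an inequality is kept if there is no crossing -/
theorem keep (c : Cfg I J) {j k : J} {s t : ℝ} (hts : t ≤ s) (h1 : c.ln j s < c.ln k s)
    (h2 : c.X j k < t ∨ s ≤ c.X j k) : c.ln j t < c.ln k t := by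
  have hjk : j ≠ k := by rintro rfl; exact lt_irrefl _ h1
  obtain ⟨p1, p2, -⟩ := cmp I J c s j k hjk
  obtain ⟨q1, -, -⟩ := cmp I J c t j k hjk
  have h3 : s ≠ c.X j k := fun h => h1.ne (p2.mpr h)
  rw [q1]
  rcases p1.mp h1 with ⟨a1, a2⟩ | ⟨a1, a2⟩
  · rcases h2 with h2 | h2
    · exact Or.inl ⟨a1, h2⟩
    · exact absurd a2 (not_lt.mpr h2)
  · exact Or.inr ⟨a1, lt_of_le_of_lt hts a2⟩

theorem prop : PROP := by
  intro I J c R l a b t s hts hnb hf
  obtain ⟨n1, n2, n3, n4, n5⟩ := hnb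
  obtain ⟨f1, f2, f3, f4⟩ := hf
  have hlb : l ≠ b := by rintro rfl; exact lt_irrefl _ n4
  have hcomm : ∀ j k : J, j ≠ k → c.X j k = c.X k j := fun j k h => (cmp _ _ c 0 j k h).2.2
  refine ⟨⟨n1, n2, keep c hts n3 f3, keep c hts n4 (by rw [hcomm b l hlb.symm]; exact f4),
    fun r hr hra hrb => ?_⟩, ?_, ?_⟩
  · rcases n5 r hr hra hrb with h | h
    · exact Or.inl (keep c hts h (f1 r hr hra))
    · exact Or.inr (keep c hts h (by rw [hcomm r b hrb]; exact f2 r hr hrb))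
  · refine congrArg card (filter_congr fun r hr => and_congr_right fun hra => ?_)
    rcases f1 r hr hra with h | h
    · exact ⟨fun _ => lt_of_lt_of_le h hts, fun _ => h⟩
    · exact ⟨fun h2 => by linarith, fun h2 => by linarith⟩
  · refine congrArg card (filter_congr fun r hr => and_congr_right fun hra => ?_)
    rcases f2 r hr hra with h | h
    · exact ⟨fun _ => lt_of_lt_of_le h hts, fun _ => h⟩
    · exact ⟨fun h2 => by linarith, fun h2 => by linarith⟩

end Pool.Agent.Helper58.LC
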