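import Pool.Agent.Helper58.LC.Zone1

set_option autoImplicit false

open Classical Finset Filter Topology

namespace Pool.Agent.Helper58.LC

variable {I J : Type}

theorem near (c : Cfg I J) {j k : J} {e : ℝ} (h : c.ln j e < c.ln k e) :
    ∀ᶠ t in 𝓝 e, c.ln j t < c.ln k t := by
  unfold Cfg.ln at h ⊢
  exact ContinuousAt.eventually_lt (by fun_prop) (by fun_prop) h

/-- a line of `R` between `l` and its neighbour at `e` contradicts `Nb` to the right of `e` -/
theorem squeeze (c : Cfg I J) {R : Finset J} {l a b r : J} {e s : ℝ} (hes : e < s)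
    (h : ∀ t, e < t → t < s → c.Nb R t (c.ln l t) a b) (hr : r ∈ R)
    (h1 : c.ln l e < c.ln r e) (h2 : c.ln r e < c.ln a e) : False := by
  obtain ⟨t, ⟨h3, h4⟩, h5⟩ := ((((near c h1).and (near c h2)).filter_mono
    nhdsWithin_le_nhds).and (Ioo_mem_nhdsGT hes)).exists
  obtain ⟨n1, n2, n3, n4, n5⟩ := h t h5.1 h5.2
  have hra : r ≠ a := by rintro rfl; exact lt_irrefl _ h4
  have hrb : r ≠ b := by rintro rfl; exact lt_irrefl _ (h3.trans n4)
  rcases n5 r hr hra hrb with h6 | h6 <;> linarith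

/-- the same at a point of the interval -/
theorem squeeze' (c : Cfg I J) {R : Finset J} {l a b r : J} {t : ℝ}
    (h : c.Nb R t (c.ln l t) a b) (hr : r ∈ R)
    (h3 : c.ln l t < c.ln r t) (h4 : c.ln r t < c.ln a t) : False := by
  obtain ⟨n1, n2, n3, n4, n5⟩ := h
  have hra : r ≠ a := by rintro rfl; exact lt_irrefl _ h4
  have hrb : r ≠ b := by rintro rfl; exact lt_irrefl _ (h3.trans n4)
  rcases n5 r hr hra hrb with h6 | h6 <;> linarith

theorem at_cross (c : Cfg I J) {j k : J} {e : ℝ} (hjk : k ≠ j) (h : c.X j k = e) :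
    c.ln j e = c.ln k e := (cmp _ _ c e j k hjk.symm).2.1.mpr h.symm

theorem un3 : UN3 := by
  have key : ∀ (I J : Type) (c : Cfg I J) (R : Finset J) (l a b a' b' : J) (e s e' s' : ℝ)
      (o : Option J), e < s → e' < s' → (∀ t, e < t → t < s → c.Nb R t (c.ln l t) a b) →
      (∀ t, e' < t → t < s' → c.Nb R t (c.ln l t) a' b') → T3 c R l a e o → T3 c R l a' e' o →
      ¬ e < e' := by
    intro I J c R l a b a' b' e s e' s' o hes hes' h h' ⟨r, hr, hra, hX, p1, p2, p3, p4⟩
      ⟨r', hr', hra', hX', q1, q2, q3, q4⟩ hlt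
    have hrr : r = r' := Option.some.inj (p4.symm.trans q4)
    subst hrr
    have e1 := at_cross c hra hX
    have e2 := at_cross c hra' hX'
    have haR : a ∈ R := by
      obtain ⟨t, ht1, ht2⟩ := exists_between hes
      exact (h t ht1 ht2).1
    refine squeeze c hes' h' haR ?_ ?_
    · unfold Cfg.ln at *; nlinarith
    · rw [e2]; unfold Cfg.ln at *; nlinarith
  intro I J c R l a b a' b' e s e' s' o hes hes' h h' t1 t2
  rcases lt_trichotomy e e' with h1 | h1 | h1
  · exact absurd h1 (key _ _ c R l a b a' b' e s e' s' o hes hes' h h' t1 t2)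
  · exact h1
  · exact absurd h1 (key _ _ c R l a' b' a b e' s' e s o hes' hes h' h t2 t1)

theorem un4 : UN4 := by
  have key : ∀ (I J : Type) (c : Cfg I J) (R : Finset J) (l a b a' b' : J) (e s e' s' : ℝ)
      (o : Option J), e < s → e' < s' → (∀ t, e < t → t < s → c.Nb R t (c.ln l t) a b) →
      (∀ t, e' < t → t < s' → c.Nb R t (c.ln l t) a' b') → T4 c R l a e o → T4 c R l a' e' o →
      ¬ e < e' := by
    intro I J c R l a b a' b' e s e' s' o hes hes' h h' ⟨r, hr, hra, hX, p1, p2, p3, p4⟩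
      ⟨r', hr', hra', hX', q1, q2, q3, q4⟩ hlt
    have haa : a = a' := Option.some.inj (p4.symm.trans q4)
    subst haa
    have e2 := at_cross c hra' hX'
    obtain ⟨t, ht1, ht2⟩ := exists_between (lt_min hes hlt)
    refine squeeze' c (h t ht1 (lt_of_lt_of_le ht2 (min_le_left _ _))) hr' ?_ ?_
    · have := lt_of_lt_of_le ht2 (min_le_right _ _)
      unfold Cfg.ln at *; nlinarith
    · have := lt_of_lt_of_le ht2 (min_le_right _ _)
      unfold Cfg.ln at *; nlinarith
  intro I J c R l a b a' b' e s e' s' o hes hes' h h' t1 t2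
  rcases lt_trichotomy e e' with h1 | h1 | h1
  · exact absurd h1 (key _ _ c R l a b a' b' e s e' s' o hes hes' h h' t1 t2)
  · exact h1
  · exact absurd h1 (key _ _ c R l a' b' a b e' s' e s o hes' hes h' h t2 t1)

end Pool.Agent.Helper58.LC
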